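import Mathlib
set_option autoImplicit false
open Finset
namespace Weird

/-- every `c + t*h` with `t ≤ T` is a sum of distinct elements of `X` -/
def AP (X : Finset ℕ) (c h T : ℕ) : Prop :=
  ∀ t ≤ T, ∃ S ⊆ X, ∑ x ∈ S, x = c + t * h

theorem AP.mono {X X' : Finset ℕ} {c h T T' : ℕ} (H : AP X c h T) (hX : X ⊆ X') (hT : T' ≤ T) :
    AP X' c h T' := by
  intro t ht
  obtain ⟨S, hS, hs⟩ := H t (ht.trans hT)
  exact ⟨S, hS.trans hX, hs⟩

theorem AP.insert_one {X : Finset ℕ} {c h T e z : ℕ} (H : AP X c h T) (hz : z ∉ X)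
    (hze : z = e * h) (he : e ≤ T + 1) : AP (insert z X) c h (T + e) := by
  intro t ht
  by_cases h1 : t ≤ T
  · obtain ⟨S, hS, hs⟩ := H t h1
    exact ⟨S, hS.trans (subset_insert _ _), hs⟩
  · obtain ⟨S, hS, hs⟩ := H (t - e) (by omega)
    refine ⟨insert z S, insert_subset_insert _ hS, ?_⟩
    rw [sum_insert (fun h' => hz (hS h')), hs, hze]
    have : t = (t - e) + e := by omega
    conv_rhs => rw [this]
    ring

theorem AP.insert_pair {X : Finset ℕ} {c h T e y z : ℕ} (H : AP X c h T) (hy : y ∉ X) (hz : z ∉ X)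
    (hze : z = y + e * h) (he : e ≤ T + 1) :
    AP (insert y (insert z X)) (c + y) h (T + e) := by
  intro t ht
  by_cases h1 : t ≤ T
  · obtain ⟨S, hS, hs⟩ := H t h1
    refine ⟨insert y S, insert_subset_insert _ (hS.trans (subset_insert _ _)), ?_⟩
    rw [sum_insert (fun h' => hy (hS h')), hs]; ring
  · obtain ⟨S, hS, hs⟩ := H (t - e) (by omega)
    refine ⟨insert z S, ?_, ?_⟩
    · exact (insert_subset_insert _ hS).trans (subset_insert _ _)
    · rw [sum_insert (fun h' => hz (hS h')), hs, hze]
      have : t = (t - e) + e := by omega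
      conv_rhs => rw [this]
      ring

theorem AP.chain {X D : Finset ℕ} {a L : ℕ} (H : AP X a 1 L) (hD : Disjoint X D)
    (hc : ∀ x ∈ D, x ≤ L + 1 + ∑ d ∈ D.filter (· < x), d) :
    AP (X ∪ D) a 1 (L + ∑ d ∈ D, d) := by
  induction D using Finset.induction_on_max with
  | empty => simpa using H
  | insert z s hz ih =>
    have hzs : z ∉ s := fun h => lt_irrefl _ (hz z h)
    have hzX : z ∉ X := fun h => (Finset.disjoint_left.1 hD h) (mem_insert_self _ _)
    have ih' := ih (hD.mono_right (subset_insert _ _)) (by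
      intro x hx
      have h1 := hc x (mem_insert_of_mem hx)
      rw [filter_insert, if_neg (by have := hz x hx; omega)] at h1
      exact h1)
    have h2 := hc z (mem_insert_self _ _)
    rw [filter_insert, if_neg (lt_irrefl z), filter_true_of_mem (fun x hx => hz x hx)] at h2
    have h3 := AP.insert_one (z := z) (e := z) ih' (by simp [hzs, hzX]) (by ring) (by omega)
    have e1 : X ∪ insert z s = insert z (X ∪ s) := by
      ext x; simp
    rw [e1, sum_insert hzs]
    have e2 : L + (z + ∑ d ∈ s, d) = L + ∑ d ∈ s, d + z := by ring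
    rw [e2]; exact h3

end Weird
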