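import Mathlib
import Pool.Agent.Helper146_Weird.Basic
set_option autoImplicit false
set_option linter.all false
open Finset
namespace Weird




open Classical in
theorem residues {h : ℕ} [NeZero h] (W : Finset ℕ) (hW : ∀ w ∈ W, Nat.Coprime w h) :
    min h (W.card + 1) ≤
      (W.powerset.image (fun S : Finset ℕ => ((∑ x ∈ S, x : ℕ) : ZMod h))).card := by
  induction W using Finset.induction_on with
  | empty => simp
  | insert w V hw ih =>
    have ih' := ih (fun x hx => hW x (mem_insert_of_mem hx))
    set R : Finset (ZMod h) := V.powerset.image (fun S : Finset ℕ => ((∑ x ∈ S, x : ℕ) : ZMod h))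
      with hR
    set R' : Finset (ZMod h) :=
      (insert w V).powerset.image (fun S : Finset ℕ => ((∑ x ∈ S, x : ℕ) : ZMod h)) with hR'
    have h1 : R ⊆ R' := by
      intro r hr
      rw [hR, mem_image] at hr
      obtain ⟨S, hS, rfl⟩ := hr
      rw [hR', mem_image]
      exact ⟨S, mem_powerset.2 ((mem_powerset.1 hS).trans (subset_insert _ _)), rfl⟩
    have h2 : ∀ r ∈ R, r + (w : ZMod h) ∈ R' := by
      intro r hr
      rw [hR, mem_image] at hr
      obtain ⟨S, hS, rfl⟩ := hr
      rw [hR', mem_image]
      refine ⟨insert w S, mem_powerset.2 (insert_subset_insert _ (mem_powerset.1 hS)), ?_⟩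
      rw [sum_insert (fun h' => hw (mem_powerset.1 hS h'))]
      push_cast
      ring
    rw [card_insert_of_notMem hw]
    by_cases h3 : ∀ r ∈ R, r + (w : ZMod h) ∈ R
    · -- everything
      have h4 : ∀ n : ℕ, ((n * w : ℕ) : ZMod h) ∈ R := by
        intro n
        induction n with
        | zero =>
          rw [hR, mem_image]
          exact ⟨∅, empty_mem_powerset _, by simp⟩
        | succ n ihn =>
          have := h3 _ ihn
          have e : (((n + 1) * w : ℕ) : ZMod h) = ((n * w : ℕ) : ZMod h) + (w : ZMod h) := by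
            push_cast; ring
          rw [e]; exact this
      have h5 : R = univ := by
        rw [eq_univ_iff_forall]
        intro r
        have hu : IsUnit (w : ZMod h) := (ZMod.isUnit_iff_coprime w h).2 (hW w (mem_insert_self _ _))
        obtain ⟨u, hu⟩ := hu
        have h6 := h4 (r * (↑u⁻¹ : ZMod h)).val
        have e : ((((r * (↑u⁻¹ : ZMod h)).val * w : ℕ)) : ZMod h) = r := by
          rw [Nat.cast_mul, ZMod.natCast_val, ZMod.cast_id, ← hu, mul_assoc, Units.inv_mul, mul_one]
        rw [e] at h6
        exact h6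
      have h7 : R.card ≤ R'.card := card_le_card h1
      rw [h5, card_univ, ZMod.card] at h7
      exact (min_le_left _ _).trans h7
    · push Not at h3
      obtain ⟨r, hr, hr'⟩ := h3
      have h8 : insert (r + (w : ZMod h)) R ⊆ R' := by
        intro x hx
        rcases mem_insert.1 hx with rfl | hx
        · exact h2 r hr
        · exact h1 hx
      have h9 := card_le_card h8
      rw [card_insert_of_notMem hr'] at h9
      omega

theorem fill {c h T M : ℕ} (X W : Finset ℕ) (hd : Disjoint X W) (hap : AP X c h T) (hh : 0 < h)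
    (hW : ∀ w ∈ W, Nat.Coprime w h) (hc : h ≤ W.card + 1) (hM : ∑ x ∈ W, x ≤ M)
    (hMT : M ≤ T * h) : AP (X ∪ W) (c + M) 1 (T * h - M) := by
  classical
  haveI : NeZero h := ⟨hh.ne'⟩
  have hres := residues W hW
  rw [min_eq_left hc] at hres
  have huniv : (W.powerset.image (fun S : Finset ℕ => ((∑ x ∈ S, x : ℕ) : ZMod h))) = univ := by
    rw [← card_eq_iff_eq_univ, ZMod.card]
    refine le_antisymm ?_ hres
    have := card_le_univ (W.powerset.image (fun S : Finset ℕ => ((∑ x ∈ S, x : ℕ) : ZMod h)))
    rwa [ZMod.card] at this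
  intro t ht
  have hmem : ((M + t : ℕ) : ZMod h) ∈
      (W.powerset.image (fun S : Finset ℕ => ((∑ x ∈ S, x : ℕ) : ZMod h))) := by
    rw [huniv]; exact mem_univ _
  rw [mem_image] at hmem
  obtain ⟨S, hS, hSr⟩ := hmem
  have hSW := mem_powerset.1 hS
  have hsum : ∑ x ∈ S, x ≤ M := (sum_le_sum_of_subset hSW).trans hM
  have hmod : (∑ x ∈ S, x) ≡ M + t [MOD h] := (ZMod.natCast_eq_natCast_iff _ _ _).1 hSr
  have hdvd : h ∣ (M + t) - ∑ x ∈ S, x := (Nat.modEq_iff_dvd' (by omega)).1 hmod
  obtain ⟨q, hq⟩ := hdvd
  have hqT : q ≤ T := by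
    by_contra hcon
    push Not at hcon
    have h1 : (T + 1) * h ≤ h * q := by
      rw [mul_comm h q]; exact Nat.mul_le_mul_right _ hcon
    have h2 : (T + 1) * h = T * h + h := by ring
    omega
  obtain ⟨S', hS', hs'⟩ := hap q hqT
  refine ⟨S' ∪ S, union_subset_union hS' hSW, ?_⟩
  rw [sum_union (hd.mono hS' hSW), hs']
  have e : q * h = h * q := mul_comm _ _
  rw [e]
  omega


end Weird
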