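import Mathlib
import Pool.Agent.Helper146_Weird.Basic
set_option autoImplicit false
set_option linter.all false
open Finset
namespace Weird




/-- the two members of a pair -/
def s1pr (q : ℕ × ℕ) : Finset ℕ := {q.1, q.2}

theorem s1_ext {B : ℕ} (X : Finset ℕ) (f : ℕ → ℕ) (hf : ∀ x ∈ X, f x ∈ range B) (k0 : ℕ)
    (hk : 2 * k0 + B ≤ X.card) :
    ∃ P : Finset (ℕ × ℕ), P.card = k0 ∧ (∀ q ∈ P, q.1 ∈ X ∧ q.2 ∈ X ∧ q.1 < q.2 ∧ f q.1 = f q.2) ∧
      (∀ q ∈ P, ∀ q' ∈ P, q ≠ q' → Disjoint (s1pr q) (s1pr q')) := by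
  induction k0 with
  | zero => exact ⟨∅, by simp, by simp, by simp⟩
  | succ k ih =>
    obtain ⟨P, hP, h1, h2⟩ := ih (by omega)
    have hUX : P.biUnion s1pr ⊆ X := by
      intro x hx
      rw [mem_biUnion] at hx
      obtain ⟨q, hq, hx⟩ := hx
      simp only [s1pr, mem_insert, mem_singleton] at hx
      rcases hx with rfl | rfl
      · exact (h1 q hq).1
      · exact (h1 q hq).2.1
    have hU : (P.biUnion s1pr).card ≤ 2 * k := by
      refine card_biUnion_le.trans ?_
      calc ∑ q ∈ P, (s1pr q).card ≤ ∑ _q ∈ P, 2 := sum_le_sum fun q _ => card_le_two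
        _ = 2 * k := by rw [sum_const, hP, smul_eq_mul, mul_comm]
    have hR : (range B).card < (X \ P.biUnion s1pr).card := by
      rw [card_range, card_sdiff_of_subset hUX]
      omega
    obtain ⟨y, hy, z, hz, hyz, hfyz⟩ := exists_ne_map_eq_of_card_lt_of_maps_to hR
      (f := f) (fun x hx => hf x (mem_sdiff.1 hx).1)
    have key : ∀ y z : ℕ, y ∈ X \ P.biUnion s1pr → z ∈ X \ P.biUnion s1pr → y < z → f y = f z →
        ∃ P : Finset (ℕ × ℕ), P.card = k + 1 ∧
          (∀ q ∈ P, q.1 ∈ X ∧ q.2 ∈ X ∧ q.1 < q.2 ∧ f q.1 = f q.2) ∧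
          (∀ q ∈ P, ∀ q' ∈ P, q ≠ q' → Disjoint (s1pr q) (s1pr q')) := by
      intro y z hy hz hyz hfyz
      have hy' := mem_sdiff.1 hy
      have hz' := mem_sdiff.1 hz
      have hd : ∀ q ∈ P, Disjoint (s1pr (y, z)) (s1pr q) := by
        intro q hq
        rw [disjoint_left]
        intro a ha ha'
        have haU : a ∈ P.biUnion s1pr := mem_biUnion.2 ⟨q, hq, ha'⟩
        simp only [s1pr, mem_insert, mem_singleton] at ha
        rcases ha with rfl | rfl
        · exact hy'.2 haU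
        · exact hz'.2 haU
      have hn : (y, z) ∉ P := by
        intro hq
        exact hy'.2 (mem_biUnion.2 ⟨(y, z), hq, by simp [s1pr]⟩)
      refine ⟨insert (y, z) P, by rw [card_insert_of_notMem hn, hP], ?_, ?_⟩
      · intro q hq
        rw [mem_insert] at hq
        rcases hq with rfl | hq
        · exact ⟨hy'.1, hz'.1, hyz, hfyz⟩
        · exact h1 q hq
      · intro q hq q' hq' hne
        rw [mem_insert] at hq hq'
        rcases hq with rfl | hq
        · rcases hq' with rfl | hq'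
          · exact absurd rfl hne
          · exact hd q' hq'
        · rcases hq' with rfl | hq'
          · exact (hd q hq).symm
          · exact h2 q hq q' hq' hne
    rcases lt_or_gt_of_ne hyz with h | h
    · exact key y z hy hz h hfyz
    · exact key z y hz hy h hfyz.symm

theorem s1_ap (h : ℕ) (P : Finset (ℕ × ℕ)) (hP : ∀ q ∈ P, q.2 = q.1 + h)
    (hd : ∀ q ∈ P, ∀ q' ∈ P, q ≠ q' → Disjoint (s1pr q) (s1pr q')) :
    AP (P.biUnion s1pr) (∑ q ∈ P, q.1) h P.card := by
  induction P using Finset.induction_on with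
  | empty =>
    intro t ht
    refine ⟨∅, empty_subset _, ?_⟩
    have : t = 0 := by simpa using ht
    simp [this]
  | insert q s hq ih =>
    have ih' := ih (fun q' hq' => hP q' (mem_insert_of_mem hq'))
      (fun a ha b hb => hd a (mem_insert_of_mem ha) b (mem_insert_of_mem hb))
    have hdis : ∀ a ∈ s1pr q, a ∉ s.biUnion s1pr := by
      intro a ha ha'
      rw [mem_biUnion] at ha'
      obtain ⟨q', hq', ha'⟩ := ha'
      have hne : q ≠ q' := fun e => hq (e ▸ hq')
      exact disjoint_left.1 (hd q (mem_insert_self _ _) q' (mem_insert_of_mem hq') hne) ha ha'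
    have h1 := AP.insert_pair (y := q.1) (z := q.2) (e := 1) ih' (hdis q.1 (by simp [s1pr]))
      (hdis q.2 (by simp [s1pr])) (by rw [hP q (mem_insert_self _ _)]; ring) (by omega)
    rw [biUnion_insert, sum_insert hq, card_insert_of_notMem hq]
    have e1 : s1pr q ∪ s.biUnion s1pr = insert q.1 (insert q.2 (s.biUnion s1pr)) := by
      ext x
      simp only [s1pr, mem_union, mem_insert, mem_singleton]
      tauto
    rw [e1, add_comm q.1]
    exact h1

/-
TARGET.  Proof: put H = 32*μ.  Bucket map f(x) = x / H; on X it takes at most 4N/H + 1 ≤ N/(8μ) + 1 ≤ |X|/8 + 1 values.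
(1) Extraction: for every k0 with 2*k0 + (number of buckets) ≤ |X| there is a finset P of k0 pairs (y,z), y < z, y,z ∈ X,
f y = f z (hence z - y < H), and distinct pairs of P are disjoint ({y,z} ∩ {y',z'} = ∅).  Induction on k0: after k0 pairs the
remaining part of X has more elements than buckets, so Finset.exists_ne_map_eq_of_card_lt_of_maps_to gives two more elements
in one bucket.
(2) Take k0 = |X|/8 (floor).  Since |X| ≥ N/μ ≥ 1024 μ ≥ 1024 this is allowed, and k0 ≥ |X|/9.  Pigeonhole on z - y ∈ [1,H):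
some h has a set P_h of k ≥ k0/H pairs with z = y + h, so k*H ≥ k0, k ≥ 1, N ≤ μ|X| ≤ 9 μ k0 ≤ 288 μ^2 k ≤ 512 μ^2 k.
(3) X1 = union of the {y, y+h} over P_h, |X1| = 2k ≤ 2 k0 ≤ |X|/4, and AP X1 (sum of the y) h k by Finset induction over
P_h from AP ∅ 0 h 0 with AP.insert_pair, e = 1.
-/
theorem stage1 {N μ : ℕ} (hμ : 0 < μ) (X : Finset ℕ) (hX : ∀ x ∈ X, x < 4 * N)
    (hcard : N ≤ μ * X.card) (hN : 2 ^ 10 * μ ^ 2 ≤ N) :
    ∃ h k c : ℕ, ∃ X1 ⊆ X, 0 < h ∧ h < 32 * μ ∧ 1 ≤ k ∧ X1.card = 2 * k ∧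
      4 * X1.card ≤ X.card ∧ N ≤ 512 * μ ^ 2 * k ∧ AP X1 c h k := by
  have hX0 : 1024 * μ ≤ X.card := by
    have h1 : 2 ^ 10 * μ ^ 2 ≤ μ * X.card := hN.trans hcard
    have h2 : μ * (1024 * μ) ≤ μ * X.card := by nlinarith
    exact Nat.le_of_mul_le_mul_left h2 hμ
  have hX1 : 1024 ≤ X.card := by nlinarith
  have hH : 0 < 32 * μ := by omega
  have hbuck : ∀ x ∈ X, x / (32 * μ) ∈ range (X.card / 8 + 1) := by
    intro x hx
    rw [mem_range, Nat.lt_succ_iff, Nat.le_div_iff_mul_le (by norm_num)]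
    have h1 := hX x hx
    have h2 : x / (32 * μ) * (32 * μ) ≤ x := Nat.div_mul_le_self _ _
    have h3 : μ * (x / (32 * μ) * 8) ≤ μ * X.card := by nlinarith
    exact Nat.le_of_mul_le_mul_left h3 hμ
  obtain ⟨P, hP, h1, h2⟩ := s1_ext X (fun x => x / (32 * μ)) hbuck (X.card / 8) (by omega)
  have hdiff : ∀ q ∈ P, q.2 - q.1 ∈ Ico 1 (32 * μ) := by
    intro q hq
    obtain ⟨-, -, h3, h4⟩ := h1 q hq
    rw [mem_Ico]
    refine ⟨by omega, ?_⟩
    have h5 : q.2 < (q.2 / (32 * μ)) * (32 * μ) + 32 * μ := Nat.lt_div_mul_add hH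
    have h6 : (q.1 / (32 * μ)) * (32 * μ) ≤ q.1 := Nat.div_mul_le_self _ _
    have h7 : q.1 / (32 * μ) = q.2 / (32 * μ) := h4
    rw [h7] at h6
    omega
  obtain ⟨h, hh, hk⟩ : ∃ h ∈ Ico 1 (32 * μ),
      P.card ≤ (P.filter (fun q => q.2 - q.1 = h)).card * (32 * μ) := by
    by_contra hcon
    push Not at hcon
    have e1 := card_eq_sum_card_fiberwise (f := fun q : ℕ × ℕ => q.2 - q.1) (s := P)
      (t := Ico 1 (32 * μ)) (fun q hq => hdiff q hq)
    have e2 : ∑ h ∈ Ico 1 (32 * μ), (P.filter (fun q => q.2 - q.1 = h)).card * (32 * μ) <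
        ∑ _h ∈ Ico 1 (32 * μ), P.card := by
      refine sum_lt_sum_of_nonempty ?_ hcon
      exact ⟨1, by rw [mem_Ico]; omega⟩
    rw [← sum_mul, ← e1, sum_const, Nat.card_Ico, smul_eq_mul] at e2
    have e3 : (32 * μ - 1) * P.card ≤ P.card * (32 * μ) := by
      rw [mul_comm]
      exact Nat.mul_le_mul_left _ (Nat.sub_le _ _)
    omega
  rw [mem_Ico] at hh
  set Ph := P.filter (fun q => q.2 - q.1 = h) with hPh
  have hPhP : Ph ⊆ P := filter_subset _ _
  have hq : ∀ q ∈ Ph, q.2 = q.1 + h := by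
    intro q hq
    rw [hPh, mem_filter] at hq
    have := (h1 q hq.1).2.2.1
    omega
  have hd : ∀ q ∈ Ph, ∀ q' ∈ Ph, q ≠ q' → Disjoint (s1pr q) (s1pr q') :=
    fun q hq q' hq' => h2 q (hPhP hq) q' (hPhP hq')
  have hcard1 : (Ph.biUnion s1pr).card = 2 * Ph.card := by
    rw [card_biUnion (fun q hq q' hq' hne => hd q hq q' hq' hne)]
    have : ∀ q ∈ Ph, (s1pr q).card = 2 := by
      intro q hq'
      have h3 := (h1 q (hPhP hq')).2.2.1
      exact card_pair h3.ne
    rw [sum_congr rfl this, sum_const, smul_eq_mul, mul_comm]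
  have hPhle : Ph.card ≤ P.card := card_le_card hPhP
  have hk1 : 1 ≤ Ph.card := by
    by_contra hcon
    have : Ph.card = 0 := by omega
    rw [this, hP] at hk
    omega
  refine ⟨h, Ph.card, ∑ q ∈ Ph, q.1, Ph.biUnion s1pr, ?_, by omega, by omega, hk1, hcard1, ?_, ?_,
    s1_ap h Ph hq hd⟩
  · intro x hx
    rw [mem_biUnion] at hx
    obtain ⟨q, hq', hx⟩ := hx
    simp only [s1pr, mem_insert, mem_singleton] at hx
    rcases hx with rfl | rfl
    · exact (h1 q (hPhP hq')).1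
    · exact (h1 q (hPhP hq')).2.1
  · rw [hcard1]
    omega
  · have h3 : X.card ≤ 9 * P.card := by rw [hP]; omega
    calc N ≤ μ * X.card := hcard
      _ ≤ μ * (9 * P.card) := Nat.mul_le_mul_left _ h3
      _ ≤ μ * (9 * (Ph.card * (32 * μ))) :=
          Nat.mul_le_mul_left _ (Nat.mul_le_mul_left _ hk)
      _ = 288 * μ ^ 2 * Ph.card := by ring
      _ ≤ 512 * μ ^ 2 * Ph.card := by
          refine Nat.mul_le_mul_right _ (Nat.mul_le_mul_right _ (by norm_num))


end Weird
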