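import Mathlib
import Pool.Agent.Helper146_Weird.Basic
set_option autoImplicit false
set_option linter.all false
open Finset
namespace Weird
theorem extract (j : ℕ) : ∀ {c h T : ℕ} (b : ℕ) (X1 E : Finset ℕ) (hd : Disjoint X1 E)
    (hap : AP X1 c h T) (hh : 0 < h) (α r : ℕ)
    (hE : ∀ x ∈ E, α ≤ x ∧ x ≤ α + T * h ∧ x % h = r) (hj : 2 * j + b ≤ E.card),
    ∃ E' ⊆ E, ∃ c', AP (X1 ∪ E') c' h (T + j * (b + 1)) := by
  induction j with
  | zero =>
    intro c h T b X1 E hd hap hh α r hE hj
    exact ⟨∅, empty_subset _, c, by simpa using hap⟩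
  | succ j ih =>
    intro c h T b X1 E hd hap hh α r hE hj
    have hcard : 2 ≤ E.card := by omega
    have hne : E.Nonempty := by
      rw [← Finset.card_pos]; omega
    obtain ⟨lo, hlo, hlo'⟩ : ∃ lo ∈ E, ∀ x ∈ E, lo ≤ x :=
      ⟨E.min' hne, E.min'_mem hne, fun x hx => E.min'_le x hx⟩
    obtain ⟨hi, hhi, hhi'⟩ : ∃ hi ∈ E, ∀ x ∈ E, x ≤ hi :=
      ⟨E.max' hne, E.max'_mem hne, fun x hx => E.le_max' x hx⟩
    have key : ∀ x ∈ E, x = lo + ((x - lo) / h) * h := by
      intro x hx
      have h1 := (hE x hx).2.2
      have h2 := (hE lo hlo).2.2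
      have h3 := hlo' x hx
      have h4 : h ∣ x - lo := (Nat.modEq_iff_dvd' h3).1 (by rw [Nat.ModEq, h1, h2])
      rw [Nat.div_mul_cancel h4]; omega
    set e := (hi - lo) / h with he
    have hz : hi = lo + e * h := key hi hhi
    have hcardle : E.card ≤ e + 1 := by
      have hinj : Set.InjOn (fun x => (x - lo) / h) (E : Set ℕ) := by
        intro x hx y hy hxy
        have hxy' : (x - lo) / h = (y - lo) / h := hxy
        rw [key x hx, key y hy, hxy']
      have hmaps : ∀ x ∈ E, (fun x => (x - lo) / h) x ∈ Finset.range (e + 1) := by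
        intro x hx
        rw [Finset.mem_range]
        have : (x - lo) / h ≤ (hi - lo) / h :=
          Nat.div_le_div_right (by have := hhi' x hx; omega)
        exact Nat.lt_succ_of_le this
      have := Finset.card_le_card_of_injOn _ hmaps hinj
      simpa using this
    have heT : e ≤ T := by
      have h1 := (hE hi hhi).2.1
      have h2 := (hE lo hlo).1
      have h3 : e * h ≤ T * h := by omega
      exact Nat.le_of_mul_le_mul_right h3 hh
    have hlt : lo ≠ hi := by
      intro hh'
      have : e * h = 0 := by omega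
      rcases Nat.mul_eq_zero.1 this with h0 | h0
      · omega
      · omega
    have hloX : lo ∉ X1 := fun h' => (Finset.disjoint_left.1 hd h') hlo
    have hhiX : hi ∉ X1 := fun h' => (Finset.disjoint_left.1 hd h') hhi
    have hap1 := AP.insert_pair hap hloX hhiX hz (by omega)
    have hap2 : AP (insert lo (insert hi X1)) (c + lo) h (T + (b + 1)) :=
      hap1.mono (Finset.Subset.refl _) (by omega)
    have hd' : Disjoint (insert lo (insert hi X1)) (E \ {lo, hi}) := by
      rw [Finset.disjoint_left]
      intro x hx hx'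
      rw [Finset.mem_sdiff] at hx'
      simp only [Finset.mem_insert, Finset.mem_singleton, not_or] at hx hx'
      rcases hx with rfl | rfl | hx
      · exact hx'.2.1 rfl
      · exact hx'.2.2 rfl
      · exact (Finset.disjoint_left.1 hd hx) hx'.1
    have hcard' : 2 * j + b ≤ (E \ {lo, hi}).card := by
      have hsub : ({lo, hi} : Finset ℕ) ⊆ E := by
        intro x hx
        simp only [Finset.mem_insert, Finset.mem_singleton] at hx
        rcases hx with rfl | rfl
        · exact hlo
        · exact hhi
      rw [Finset.card_sdiff_of_subset hsub, Finset.card_pair hlt]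
      omega
    obtain ⟨E', hE', c', hc'⟩ := ih (c := c + lo) (h := h) (T := T + (b + 1)) b
      (insert lo (insert hi X1)) (E \ {lo, hi}) hd' hap2 hh α r (by
        intro x hx
        rw [Finset.mem_sdiff] at hx
        obtain ⟨h1, h2, h3⟩ := hE x hx.1
        refine ⟨h1, h2.trans ?_, h3⟩
        have : T * h ≤ (T + (b + 1)) * h := Nat.mul_le_mul_right _ (by omega)
        omega) hcard'
    refine ⟨insert lo (insert hi E'), ?_, c', ?_⟩
    · intro x hx
      simp only [Finset.mem_insert] at hx
      rcases hx with rfl | rfl | hx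
      · exact hlo
      · exact hhi
      · exact (Finset.mem_sdiff.1 (hE' hx)).1
    · have e1 : X1 ∪ insert lo (insert hi E') = insert lo (insert hi X1) ∪ E' := by
        ext x; simp only [Finset.mem_union, Finset.mem_insert]; tauto
      have e2 : T + (j + 1) * (b + 1) = T + (b + 1) + j * (b + 1) := by ring
      rw [e1, e2]; exact hc'



end Weird
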