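import Mathlib
import Pool.Agent.Helper146_Weird.Basic
import Pool.Agent.Helper146_Weird.Extract
set_option autoImplicit false
set_option linter.all false
open Finset
namespace Weird
/-
TARGET.  Proof: classify x ∈ X' by (x / (k*h), x % h).  As x < 4N the number of classes is at most (4N/(k*h) + 1) * h
≤ 4N/k + h ≤ 2048 μ^2 + 32 μ ≤ 4096 μ^2 (use N ≤ 512 μ^2 k).  Pigeonhole: a class E0 ⊆ X' with |E0| * 4096 μ^2 ≥ |X'|, so
with hcard  N ≤ 2 μ |X'| ≤ 8192 μ^3 |E0|.  The elements of E0 lie in an interval [α, α + k*h) and are congruent mod h, so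
|E0| ≤ k.  Apply extract with T = k, j = |E0|/4, b = |E0|/2 (floors): E ⊆ E0 with AP (X1 ∪ E) c' h (k + j(b+1)), and
j(b+1) ≥ (|E0|/4 - 1) (|E0|/2) ≥ |E0|^2/16 ≥ N^2/(2^30 μ^6) ≥ 8 N by hN (|E0| is huge: ≥ 2^21 μ^3).  Weaken with AP.mono.
-/
theorem stage2 {N μ h k c : ℕ} (hμ : 0 < μ) (X1 X' : Finset ℕ) (hd : Disjoint X1 X')
    (hap : AP X1 c h k) (hh : 0 < h) (hh2 : h < 32 * μ) (hk : N ≤ 512 * μ ^ 2 * k) (hk1 : 1 ≤ k)
    (hX' : ∀ x ∈ X', x < 4 * N) (hcard : N ≤ 2 * μ * X'.card) (hN : 2 ^ 34 * μ ^ 6 ≤ N) :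
    ∃ E ⊆ X', E.card ≤ k ∧ ∃ c', AP (X1 ∪ E) c' h (8 * N) := by
  have hkh : 0 < k * h := Nat.mul_pos hk1 hh
  set f : ℕ → ℕ × ℕ := fun x => (x / (k * h), x % h) with hf
  set t : Finset (ℕ × ℕ) := range (4 * N / (k * h) + 1) ×ˢ range h with ht
  have hmaps : ∀ x ∈ X', f x ∈ t := by
    intro x hx
    have h1 := hX' x hx
    simp only [hf, ht, mem_product, mem_range]
    refine ⟨Nat.lt_succ_of_le (Nat.div_le_div_right h1.le), Nat.mod_lt _ hh⟩
  have htc : t.card ≤ 4096 * μ ^ 2 := by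
    rw [ht, card_product, card_range, card_range]
    have h1 : 4 * N / (k * h) * h ≤ 2048 * μ ^ 2 := by
      have h2 : 4 * N / (k * h) * h ≤ 4 * N / k := by
        rw [← Nat.div_div_eq_div_mul]
        exact Nat.div_mul_le_self _ _
      refine h2.trans ?_
      refine Nat.div_le_of_le_mul ?_
      nlinarith
    have h3 : μ ≤ μ ^ 2 := by nlinarith
    nlinarith
  have htne : t.Nonempty := by
    rw [ht]
    exact ⟨(0, 0), by simp [hh]⟩
  have hXpos : 0 < X'.card := by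
    rcases Nat.eq_zero_or_pos X'.card with h0 | h0
    · rw [h0] at hcard
      have : 0 < 2 ^ 34 * μ ^ 6 := by positivity
      omega
    · exact h0
  obtain ⟨y, hy, hyc⟩ : ∃ y ∈ t, X'.card ≤ 4096 * μ ^ 2 * (X'.filter (fun x => f x = y)).card := by
    by_contra hcon
    push Not at hcon
    have h1 := card_eq_sum_card_fiberwise (s := X') (t := t) (f := f) hmaps
    have h2 : 4096 * μ ^ 2 * X'.card < t.card * X'.card := by
      calc 4096 * μ ^ 2 * X'.card
          = ∑ y ∈ t, 4096 * μ ^ 2 * (X'.filter (fun x => f x = y)).card := by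
            rw [← mul_sum, ← h1]
        _ < ∑ y ∈ t, X'.card := sum_lt_sum_of_nonempty htne hcon
        _ = t.card * X'.card := by rw [sum_const, smul_eq_mul]
    have h3 := Nat.mul_le_mul_right X'.card htc
    omega
  set E0 := X'.filter (fun x => f x = y) with hE0
  have hE0X : E0 ⊆ X' := filter_subset _ _
  obtain ⟨q, r⟩ := y
  have hmem : ∀ x ∈ E0, x / (k * h) = q ∧ x % h = r := by
    intro x hx
    have h1 := (mem_filter.1 hx).2
    simp only [hf, Prod.mk.injEq] at h1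
    exact h1
  have hint : ∀ x ∈ E0, q * (k * h) ≤ x ∧ x < q * (k * h) + k * h := by
    intro x hx
    obtain ⟨h1, -⟩ := hmem x hx
    have h2 := Nat.div_add_mod x (k * h)
    have h3 := Nat.mod_lt x hkh
    rw [h1] at h2
    constructor
    · rw [mul_comm]; omega
    · rw [mul_comm q]; omega
  have hE0k : E0.card ≤ k := by
    have h1 : E0.card ≤ (Ico (q * k) (q * k + k)).card := by
      refine card_le_card_of_injOn (fun x => x / h) ?_ ?_
      · intro x hx
        obtain ⟨h2, h3⟩ := hint x hx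
        simp only [coe_Ico, Set.mem_Ico]
        constructor
        · rw [Nat.le_div_iff_mul_le hh]; rw [mul_assoc]; exact h2
        · rw [Nat.div_lt_iff_lt_mul hh, add_mul, mul_assoc]; exact h3
      · intro x hx x' hx' hxx
        obtain ⟨-, h2⟩ := hmem x hx
        obtain ⟨-, h3⟩ := hmem x' hx'
        have h4 := Nat.div_add_mod x h
        have h5 := Nat.div_add_mod x' h
        simp only at hxx
        rw [← h4, ← h5, hxx, h2, h3]
    simpa using h1
  have hNn : N ≤ 8192 * μ ^ 3 * E0.card := by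
    calc N ≤ 2 * μ * X'.card := hcard
      _ ≤ 2 * μ * (4096 * μ ^ 2 * E0.card) := Nat.mul_le_mul_left _ hyc
      _ = 8192 * μ ^ 3 * E0.card := by ring
  have hsq : 256 * N ≤ E0.card ^ 2 := by
    have h1 : 2 ^ 34 * μ ^ 6 * N ≤ N * N := Nat.mul_le_mul_right _ hN
    have h2 : N * N ≤ (8192 * μ ^ 3 * E0.card) * (8192 * μ ^ 3 * E0.card) := Nat.mul_le_mul hNn hNn
    have h3 : (2 ^ 26 * μ ^ 6) * (256 * N) ≤ (2 ^ 26 * μ ^ 6) * E0.card ^ 2 := by
      calc (2 ^ 26 * μ ^ 6) * (256 * N) = 2 ^ 34 * μ ^ 6 * N := by ring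
        _ ≤ _ := h1.trans h2
        _ = (2 ^ 26 * μ ^ 6) * E0.card ^ 2 := by ring
    exact Nat.le_of_mul_le_mul_left h3 (by positivity)
  have hbig : 64 ≤ E0.card := by
    by_contra hlt
    push Not at hlt
    have h1 : E0.card ^ 2 < 64 ^ 2 := Nat.pow_lt_pow_left hlt (by norm_num)
    have h2 : 2 ^ 34 * 1 ≤ N := le_trans (Nat.mul_le_mul_left _ (Nat.one_le_pow _ _ hμ)) hN
    omega
  obtain ⟨E', hE', c', hap'⟩ := extract (E0.card / 4) (E0.card / 2) X1 E0
    (disjoint_of_subset_right hE0X hd) hap hh (q * (k * h)) r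
    (fun x hx => ⟨(hint x hx).1, (hint x hx).2.le, (hmem x hx).2⟩) (by omega)
  refine ⟨E', hE'.trans hE0X, (card_le_card hE').trans hE0k, c', hap'.mono (Subset.refl _) ?_⟩
  set n := E0.card with hn
  obtain ⟨j, hj⟩ : ∃ j, n / 4 = j := ⟨_, rfl⟩
  obtain ⟨b, hb⟩ : ∃ b, n / 2 = b := ⟨_, rfl⟩
  rw [hj, hb]
  have hj1 : n ≤ 4 * j + 3 := by omega
  have hb1 : n ≤ 2 * b + 1 := by omega
  have h1 : (n - 3) * n ≤ (4 * j) * (2 * b + 1) := Nat.mul_le_mul (by omega) hb1
  have h2 : n ^ 2 ≤ 2 * ((n - 3) * n) := by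
    obtain ⟨m, hm⟩ : ∃ m, n = m + 3 := ⟨n - 3, by omega⟩
    have hm2 : n - 3 = m := by omega
    rw [hm2]
    clear_value n
    subst hm
    nlinarith
  nlinarith


end Weird
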