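import Mathlib
import Pool.Agent.Helper146_Weird.Basic
import Pool.Agent.Helper146_Weird.Stage1
import Pool.Agent.Helper146_Weird.Stage2
import Pool.Agent.Helper146_Weird.Fill
set_option autoImplicit false
set_option linter.all false
open Finset
namespace Weird
/-
TARGET.  Proof: stage1 gives h, k, c, X1 ⊆ X (|X1| = 2k ≤ |X|/4).  X' = X \ X1 has |X'| ≥ (3/4)|X|, so N ≤ 2 μ |X'|; stage2
gives E ⊆ X', |E| ≤ k ≤ |X|/8 and AP (X1 ∪ E) c' h (8N).  |X| ≥ N/μ ≥ 2^34 μ^5 ≥ 256 μ, so X \ (X1 ∪ E) contains W with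
|W| = h - 1 < 32 μ ≤ |X|/8; ∑ W ≤ (h-1) * 4N ≤ 4 N h; fill with T = 8N, M = 4*N*h gives AP (X1 ∪ E ∪ W) c'' 1 (4*N*h), weaken to 4N.
Let D = X \ (X1 ∪ E ∪ W), |D| ≥ |X|/2 (used ≤ |X|/4 + |X|/8 + |X|/8).  Every x ∈ D is < 4N, so AP.chain applies and gives
length 4N + ∑ D ≥ N * |X| / 2.  Weaken with AP.mono.
-/
theorem base {N μ : ℕ} (hμ : 0 < μ) (X : Finset ℕ) (hX : ∀ x ∈ X, N ≤ x ∧ x < 4 * N)
    (hcard : N ≤ μ * X.card) (hN : 2 ^ 34 * μ ^ 6 ≤ N)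
    (hcop : ∀ x ∈ X, ∀ h, 0 < h → h < 32 * μ → Nat.Coprime x h) :
    ∃ u, AP X u 1 (N * X.card / 2) := by
  have hX4 : ∀ x ∈ X, x < 4 * N := fun x hx => (hX x hx).2
  have hμ1 : 1 ≤ μ := hμ
  have hp2 : μ ^ 2 ≤ μ ^ 6 := Nat.pow_le_pow_right hμ (by norm_num)
  have hN1 : 2 ^ 10 * μ ^ 2 ≤ N := by
    exact le_trans (Nat.mul_le_mul (by norm_num) hp2) hN
  obtain ⟨h, k, c, X1, hX1, hh, hh2, hk1, hX1c, hX1q, hNk, hap⟩ := stage1 hμ X hX4 hcard hN1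
  have hcX' : (X \ X1).card = X.card - X1.card := card_sdiff_of_subset hX1
  have hN2 : N ≤ 2 * μ * (X \ X1).card := by
    have h1 : X.card ≤ 2 * (X \ X1).card := by omega
    calc N ≤ μ * X.card := hcard
      _ ≤ μ * (2 * (X \ X1).card) := Nat.mul_le_mul_left _ h1
      _ = 2 * μ * (X \ X1).card := by ring
  obtain ⟨E, hE, hEk, c', hapE⟩ := stage2 hμ X1 (X \ X1) disjoint_sdiff hap hh hh2 hNk hk1
    (fun x hx => hX4 x (sdiff_subset hx)) hN2 hN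
  have hEX : E ⊆ X := hE.trans sdiff_subset
  have hUE : X1 ∪ E ⊆ X := union_subset hX1 hEX
  have hUEc : (X1 ∪ E).card ≤ 3 * k := by
    have := card_union_le X1 E
    omega
  have hXbig : 256 * μ ≤ X.card := by
    have h1 : 2 ^ 34 * μ ^ 5 * μ ≤ X.card * μ := by
      calc 2 ^ 34 * μ ^ 5 * μ = 2 ^ 34 * μ ^ 6 := by ring
        _ ≤ N := hN
        _ ≤ μ * X.card := hcard
        _ = X.card * μ := by ring
    have h2 : 2 ^ 34 * μ ^ 5 ≤ X.card := Nat.le_of_mul_le_mul_right h1 hμ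
    have h3 : μ ≤ μ ^ 5 := Nat.le_self_pow (by norm_num) μ
    calc 256 * μ ≤ 2 ^ 34 * μ ^ 5 := Nat.mul_le_mul (by norm_num) h3
      _ ≤ X.card := h2
  have hcR : (X \ (X1 ∪ E)).card = X.card - (X1 ∪ E).card := card_sdiff_of_subset hUE
  obtain ⟨W, hW, hWc⟩ := exists_subset_card_eq (s := X \ (X1 ∪ E)) (n := h - 1) (by omega)
  have hWX : W ⊆ X := hW.trans sdiff_subset
  have hdW : Disjoint (X1 ∪ E) W := disjoint_sdiff.mono_right hW
  have hWsum : ∑ x ∈ W, x ≤ 4 * N * h := by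
    calc ∑ x ∈ W, x ≤ ∑ _x ∈ W, 4 * N := sum_le_sum fun x hx => (hX4 x (hWX hx)).le
      _ = W.card * (4 * N) := by rw [sum_const, smul_eq_mul]
      _ ≤ h * (4 * N) := Nat.mul_le_mul_right _ (by omega)
      _ = 4 * N * h := by ring
  have hfill := fill (X1 ∪ E) W hdW hapE hh (fun w hw => hcop w (hWX hw) h hh hh2)
    (by omega) hWsum (by nlinarith [Nat.zero_le (N * h)])
  have hlen : 4 * N ≤ 8 * N * h - 4 * N * h := by
    have h1 : 8 * N * h - 4 * N * h = 4 * N * h := by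
      have : 8 * N * h = 4 * N * h + 4 * N * h := by ring
      omega
    rw [h1]
    exact Nat.le_mul_of_pos_right _ hh
  have hap4 := hfill.mono (Subset.refl _) hlen
  have hUW : X1 ∪ E ∪ W ⊆ X := union_subset hUE hWX
  have hcD : (X \ (X1 ∪ E ∪ W)).card = X.card - (X1 ∪ E ∪ W).card := card_sdiff_of_subset hUW
  have hUWc : (X1 ∪ E ∪ W).card ≤ 3 * k + (h - 1) := by
    have := card_union_le (X1 ∪ E) W
    omega
  have hchain := AP.chain (D := X \ (X1 ∪ E ∪ W)) hap4 disjoint_sdiff (fun x hx => by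
    have := hX4 x (sdiff_subset hx)
    omega)
  refine ⟨c' + 4 * N * h, hchain.mono (union_subset hUW sdiff_subset) ?_⟩
  have hDsum : N * (X \ (X1 ∪ E ∪ W)).card ≤ ∑ d ∈ X \ (X1 ∪ E ∪ W), d := by
    calc N * (X \ (X1 ∪ E ∪ W)).card = ∑ _x ∈ X \ (X1 ∪ E ∪ W), N := by
          rw [sum_const, smul_eq_mul]; ring
      _ ≤ _ := sum_le_sum fun x hx => (hX x (sdiff_subset hx)).1
  have hDc : X.card ≤ 2 * (X \ (X1 ∪ E ∪ W)).card := by omega
  have h5 : N * X.card ≤ 2 * (N * (X \ (X1 ∪ E ∪ W)).card) := by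
    calc N * X.card ≤ N * (2 * (X \ (X1 ∪ E ∪ W)).card) := Nat.mul_le_mul_left _ hDc
      _ = _ := by ring
  omega


end Weird
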