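import Mathlib
import Pool.Agent.Helper146_Weird.Basic
set_option autoImplicit false
set_option linter.all false
open Finset
namespace Weird


theorem find_sub (b lo x : ℕ) (S : Finset ℕ) (hpos : ∀ p ∈ S, 0 < p) (hS : ∀ p ∈ S, p ≤ b)
    (h1 : lo < x) (h2 : x ≤ b * lo * ∏ p ∈ S, p) :
    ∃ S' ⊆ S, lo * ∏ p ∈ S', p < x ∧ x ≤ b * lo * ∏ p ∈ S', p := by
  induction S using Finset.induction_on with
  | empty => exact ⟨∅, Subset.refl _, by simpa using h1, by simpa using h2⟩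
  | insert q s hq ih =>
    by_cases h : x ≤ b * lo * ∏ p ∈ s, p
    · obtain ⟨S', hS', h3, h4⟩ := ih (fun p hp => hpos p (mem_insert_of_mem hp))
        (fun p hp => hS p (mem_insert_of_mem hp)) h
      exact ⟨S', hS'.trans (subset_insert _ _), h3, h4⟩
    · refine ⟨insert q s, Subset.refl _, ?_, h2⟩
      push Not at h
      rw [prod_insert hq]
      have hqb := hS q (mem_insert_self _ _)
      calc lo * (q * ∏ p ∈ s, p) = q * (lo * ∏ p ∈ s, p) := by ring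
        _ ≤ b * (lo * ∏ p ∈ s, p) := Nat.mul_le_mul_right _ hqb
        _ = b * lo * ∏ p ∈ s, p := by ring
        _ < x := h

theorem bottom {Y : ℕ} (Q A : Finset ℕ) (hA : A ⊆ Q) (hp : ∀ p ∈ Q, p.Prime) (hY : 4 ≤ Y)
    (hQ : ∀ p ∈ Q, p < 2 * Y) (hAY : ∀ p ∈ A, Y ≤ p) (hAK : 16 * Y ≤ (A.card).choose 3)
    (x : ℕ) (hx : 8 * Y ^ 3 < x) (hx2 : x ≤ 16 * Y ^ 4 * ∏ p ∈ Q \ A, p) :
    x ≤ ∑ d ∈ (∏ p ∈ Q, p).divisors.filter (fun d => 4 * Y ^ 2 ≤ d ∧ d < x), d := by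
  obtain ⟨S', hS', h3, h4⟩ := find_sub (2 * Y) (8 * Y ^ 3) x (Q \ A)
    (fun p h => (hp p (mem_sdiff.1 h).1).pos) (fun p h => (hQ p (mem_sdiff.1 h).1).le) hx
    (by
      have : 2 * Y * (8 * Y ^ 3) = 16 * Y ^ 4 := by ring
      rw [this]; exact hx2)
  set y := ∏ p ∈ S', p with hy
  have hypos : 0 < y := prod_pos (fun p h => (hp p (mem_sdiff.1 (hS' h)).1).pos)
  have hdisj : ∀ T ∈ A.powersetCard 3, Disjoint T S' := by
    intro T hT
    rw [Finset.disjoint_left]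
    intro a ha ha'
    exact (mem_sdiff.1 (hS' ha')).2 ((mem_powersetCard.1 hT).1 ha)
  have hprod : ∀ T ∈ A.powersetCard 3, (∏ p ∈ T, p) * y = ∏ p ∈ T ∪ S', p := by
    intro T hT
    rw [prod_union (hdisj T hT)]
  have hpr : ∀ T ∈ A.powersetCard 3, ∀ p ∈ T ∪ S', p.Prime := by
    intro T hT p hpp
    rcases mem_union.1 hpp with h | h
    · exact hp p (hA ((mem_powersetCard.1 hT).1 h))
    · exact hp p (mem_sdiff.1 (hS' h)).1
  have hinj : Set.InjOn (fun T : Finset ℕ => (∏ p ∈ T, p) * y) (A.powersetCard 3 : Finset (Finset ℕ)) := by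
    intro T1 hT1 T2 hT2 h
    have hT1' := Finset.mem_coe.1 hT1
    have hT2' := Finset.mem_coe.1 hT2
    simp only at h
    rw [hprod T1 hT1', hprod T2 hT2'] at h
    have h5 : T1 ∪ S' = T2 ∪ S' := by
      rw [← Nat.primeFactors_prod (hpr T1 hT1'), ← Nat.primeFactors_prod (hpr T2 hT2'), h]
    have h6 : T1 = (T1 ∪ S') \ S' := by
      rw [union_sdiff_right, sdiff_eq_self_of_disjoint (hdisj T1 hT1')]
    have h7 : T2 = (T2 ∪ S') \ S' := by
      rw [union_sdiff_right, sdiff_eq_self_of_disjoint (hdisj T2 hT2')]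
    rw [h6, h7, h5]
  have hlow : ∀ T ∈ A.powersetCard 3, Y ^ 3 ≤ ∏ p ∈ T, p := by
    intro T hT
    have hc := (mem_powersetCard.1 hT).2
    calc Y ^ 3 = ∏ _p ∈ T, Y := by rw [prod_const, hc]
      _ ≤ ∏ p ∈ T, p := prod_le_prod' (fun p h => hAY p ((mem_powersetCard.1 hT).1 h))
  have hupp : ∀ T ∈ A.powersetCard 3, ∏ p ∈ T, p ≤ 8 * Y ^ 3 := by
    intro T hT
    have hc := (mem_powersetCard.1 hT).2
    calc ∏ p ∈ T, p ≤ ∏ _p ∈ T, (2 * Y) :=
          prod_le_prod' (fun p h => (hQ p (hA ((mem_powersetCard.1 hT).1 h))).le)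
      _ = 8 * Y ^ 3 := by rw [prod_const, hc]; ring
  have hsub : (A.powersetCard 3).image (fun T : Finset ℕ => (∏ p ∈ T, p) * y) ⊆
      (∏ p ∈ Q, p).divisors.filter (fun d => 4 * Y ^ 2 ≤ d ∧ d < x) := by
    intro d hd
    obtain ⟨T, hT, rfl⟩ := mem_image.1 hd
    rw [mem_filter, Nat.mem_divisors]
    refine ⟨⟨?_, ?_⟩, ?_, ?_⟩
    · rw [hprod T hT]
      apply prod_dvd_prod_of_subset
      apply union_subset ((mem_powersetCard.1 hT).1.trans hA) (hS'.trans sdiff_subset)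
    · exact (prod_pos (fun p h => (hp p h).pos)).ne'
    · calc 4 * Y ^ 2 ≤ Y * Y ^ 2 := Nat.mul_le_mul_right _ hY
        _ = Y ^ 3 * 1 := by ring
        _ ≤ (∏ p ∈ T, p) * y := Nat.mul_le_mul (hlow T hT) hypos
    · exact lt_of_le_of_lt (Nat.mul_le_mul_right _ (hupp T hT)) h3
  calc x ≤ 2 * Y * (8 * Y ^ 3) * y := h4
    _ = 16 * Y * (Y ^ 3 * y) := by ring
    _ ≤ (A.card).choose 3 * (Y ^ 3 * y) := Nat.mul_le_mul_right _ hAK
    _ = ∑ _T ∈ A.powersetCard 3, (Y ^ 3 * y) := by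
        rw [sum_const, card_powersetCard, smul_eq_mul]
    _ ≤ ∑ T ∈ A.powersetCard 3, (∏ p ∈ T, p) * y :=
        sum_le_sum (fun T hT => Nat.mul_le_mul_right _ (hlow T hT))
    _ = ∑ d ∈ (A.powersetCard 3).image (fun T : Finset ℕ => (∏ p ∈ T, p) * y), d := by
        rw [sum_image hinj]
    _ ≤ _ := sum_le_sum_of_subset hsub


end Weird
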