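import Mathlib
set_option autoImplicit false
open Finset
namespace Weird

theorem num1 (i : ℕ) (hi : 1000 ≤ i) : 2 ^ 40 * (i + 1) ^ 30 ≤ 2 ^ i := by
  induction i, hi using Nat.le_induction with
  | base =>
    calc 2 ^ 40 * (1000 + 1) ^ 30 ≤ 2 ^ 40 * (2 ^ 10) ^ 30 :=
          Nat.mul_le_mul_left _ (Nat.pow_le_pow_left (by norm_num) 30)
      _ = 2 ^ 340 := by rw [← pow_mul, ← pow_add]
      _ ≤ 2 ^ 1000 := Nat.pow_le_pow_right (by norm_num) (by norm_num)
  | succ n hn ih =>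
    have h1 : (n + 1 + 1) ^ 30 ≤ 2 * (n + 1) ^ 30 := by
      have h2 : (1:ℝ) / 2 ≤ (((n:ℝ) + 1) / (n + 2)) ^ 30 := by
        have h3 := one_add_mul_le_pow (a := -(1 / ((n:ℝ) + 2))) (by
          have : (1:ℝ) / (n + 2) ≤ 1 := by
            rw [div_le_one (by positivity)]; linarith [Nat.cast_nonneg (α := ℝ) n]
          linarith) 30
        have h4 : (1:ℝ) + -(1 / ((n:ℝ) + 2)) = ((n:ℝ) + 1) / (n + 2) := by
          field_simp; ring
        rw [h4] at h3
        refine le_trans ?_ h3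
        have h5 : (1:ℝ) / (n + 2) ≤ 1 / 60 := by
          apply one_div_le_one_div_of_le (by norm_num)
          have : (1000:ℝ) ≤ n := by exact_mod_cast hn
          linarith
        push_cast
        linarith
      rw [div_pow, div_le_div_iff₀ (by norm_num) (by positivity)] at h2
      have : ((n + 1 + 1 : ℕ) : ℝ) ^ 30 ≤ 2 * ((n + 1 : ℕ) : ℝ) ^ 30 := by
        push_cast
        have e : (n:ℝ) + 1 + 1 = n + 2 := by ring
        rw [e]; linarith
      exact_mod_cast this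
    calc 2 ^ 40 * (n + 1 + 1) ^ 30 ≤ 2 ^ 40 * (2 * (n + 1) ^ 30) := Nat.mul_le_mul_left _ h1
      _ = 2 * (2 ^ 40 * (n + 1) ^ 30) := by ring
      _ ≤ 2 * 2 ^ n := Nat.mul_le_mul_left _ ih
      _ = 2 ^ (n + 1) := by ring

theorem num2 (q : ℕ) (hq : 333 ≤ q) : 2 ^ 10 * (3 * q + 3) ^ 2 ≤ 2 ^ (2 * q) := by
  induction q, hq using Nat.le_induction with
  | base =>
    calc 2 ^ 10 * (3 * 333 + 3) ^ 2 ≤ 2 ^ 10 * (2 ^ 10) ^ 2 :=
          Nat.mul_le_mul_left _ (Nat.pow_le_pow_left (by norm_num) 2)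
      _ = 2 ^ 30 := by rw [← pow_mul, ← pow_add]
      _ ≤ 2 ^ (2 * 333) := Nat.pow_le_pow_right (by norm_num) (by norm_num)
  | succ n hn ih =>
    have h1 : (3 * (n + 1) + 3) ^ 2 ≤ 4 * (3 * n + 3) ^ 2 := by
      calc (3 * (n + 1) + 3) ^ 2 ≤ (2 * (3 * n + 3)) ^ 2 := Nat.pow_le_pow_left (by omega) 2
        _ = _ := by ring
    calc 2 ^ 10 * (3 * (n + 1) + 3) ^ 2 ≤ 2 ^ 10 * (4 * (3 * n + 3) ^ 2) := Nat.mul_le_mul_left _ h1
      _ = 4 * (2 ^ 10 * (3 * n + 3) ^ 2) := by ring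
      _ ≤ 4 * 2 ^ (2 * n) := Nat.mul_le_mul_left _ ih
      _ = 2 ^ (2 * (n + 1)) := by ring

theorem choose_growth {J Y : ℕ} (h2 : 4 * Y ≤ J.choose 2) (M : ℕ) (hM : 3 * M ≤ J) (s : ℕ)
    (hs : 2 ≤ s) (hsM : s ≤ M) : 2 ^ s * Y ≤ J.choose s := by
  induction s, hs using Nat.le_induction with
  | base => simpa using h2
  | succ n hn ih =>
    have ih' := ih (by omega)
    have h3 := Nat.choose_succ_right_eq J n
    have h4 : 2 * (n + 1) ≤ J - n := by omega
    have h5 : J.choose n * (2 * (n + 1)) ≤ J.choose (n + 1) * (n + 1) := by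
      rw [h3]; exact Nat.mul_le_mul_left _ h4
    have h6 : 2 * J.choose n ≤ J.choose (n + 1) := by
      have : (2 * J.choose n) * (n + 1) ≤ J.choose (n + 1) * (n + 1) := by
        calc _ = J.choose n * (2 * (n + 1)) := by ring
          _ ≤ _ := h5
      exact Nat.le_of_mul_le_mul_right this (by omega)
    calc 2 ^ (n + 1) * Y = 2 * (2 ^ n * Y) := by ring
      _ ≤ 2 * J.choose n := Nat.mul_le_mul_left _ ih'
      _ ≤ _ := h6

theorem choose_three (c : ℕ) (hc : 1 ≤ c) : 64 * c ^ 3 ≤ (16 * c).choose 3 := by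
  have h := Nat.descFactorial_eq_factorial_mul_choose (16 * c) 3
  simp only [Nat.descFactorial, Nat.factorial] at h
  have h1 : 14 * c ≤ 16 * c - 2 := by omega
  have h2 : 15 * c ≤ 16 * c - 1 := by omega
  have h3 : (14 * c) * ((15 * c) * (16 * c)) ≤ 6 * (16 * c).choose 3 := by
    calc (14 * c) * ((15 * c) * (16 * c)) ≤ (16 * c - 2) * ((16 * c - 1) * (16 * c)) :=
          Nat.mul_le_mul h1 (Nat.mul_le_mul_right _ h2)
      _ = 6 * (16 * c).choose 3 := by
          norm_num at h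
          rw [← h]
  nlinarith [h3, pow_pos (show 0 < c from hc) 3]

end Weird
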