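import Mathlib
import Pool.Agent.Helper146_Weird.Basic
set_option autoImplicit false
set_option linter.all false
open Finset
namespace Weird



/-
TARGET (the AP definitions above are not needed).  Proof: choose B1 ⊆ B with |B1| = |B|/2 (floor) and B2 ⊆ B \ B1 with |B2| = |B|/2
(Finset.exists_subset_card_eq).  X = image of B1 ×ˢ B2 under multiplication; injective: p p' = q q' with p,q ∈ B1, p',q' ∈ B2
primes gives p = q or p = q', the latter impossible as B1, B2 are disjoint.  Y^2 ≤ p p' < 4Y^2; p p' | ∏ B (product over {p,p'});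
a prime p ≥ Y is coprime to every 0 < h < Y.
-/
theorem prodset {Y : ℕ} (B : Finset ℕ) (hB : ∀ p ∈ B, p.Prime ∧ Y ≤ p ∧ p < 2 * Y) :
    ∃ X : Finset ℕ, (∀ x ∈ X, Y ^ 2 ≤ x ∧ x < 4 * Y ^ 2 ∧ x ∣ ∏ p ∈ B, p ∧
      ∀ h, 0 < h → h < Y → Nat.Coprime x h) ∧ (B.card / 2) ^ 2 ≤ X.card := by
  classical
  obtain ⟨B1, hB1, hc1⟩ := Finset.exists_subset_card_eq (s := B) (n := B.card / 2) (Nat.div_le_self _ _)
  have hsd : (B \ B1).card = B.card - B.card / 2 := by
    rw [Finset.card_sdiff_of_subset hB1, hc1]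
  obtain ⟨B2, hB2, hc2⟩ := Finset.exists_subset_card_eq (s := B \ B1) (n := B.card / 2)
    (by rw [hsd]; omega)
  have h2B : ∀ p ∈ B2, p ∈ B ∧ p ∉ B1 := fun p hp => Finset.mem_sdiff.1 (hB2 hp)
  refine ⟨(B1 ×ˢ B2).image (fun q => q.1 * q.2), ?_, ?_⟩
  · intro x hx
    rw [Finset.mem_image] at hx
    obtain ⟨⟨p, p'⟩, hpp, rfl⟩ := hx
    rw [Finset.mem_product] at hpp
    obtain ⟨hp1, hp2⟩ := hpp
    dsimp only at hp1 hp2 ⊢
    obtain ⟨hpP, hpY, hp2Y⟩ := hB p (hB1 hp1)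
    obtain ⟨hp'P, hp'Y, hp'2Y⟩ := hB p' (h2B p' hp2).1
    have hne : p ≠ p' := fun h => (h2B p' hp2).2 (h ▸ hp1)
    refine ⟨?_, ?_, ?_, ?_⟩
    · rw [pow_two]; exact Nat.mul_le_mul hpY hp'Y
    · calc p * p' < (2 * Y) * (2 * Y) := Nat.mul_lt_mul'' hp2Y hp'2Y
        _ = 4 * Y ^ 2 := by ring
    · have h1 : ∏ q ∈ ({p, p'} : Finset ℕ), q = p * p' := Finset.prod_pair hne
      rw [← h1]
      apply Finset.prod_dvd_prod_of_subset
      intro q hq
      rw [Finset.mem_insert, Finset.mem_singleton] at hq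
      rcases hq with rfl | rfl
      · exact hB1 hp1
      · exact (h2B _ hp2).1
    · intro h h0 hY
      have e1 : Nat.Coprime p h :=
        (hpP.coprime_iff_not_dvd).2 (fun hd => by have := Nat.le_of_dvd h0 hd; omega)
      have e2 : Nat.Coprime p' h :=
        (hp'P.coprime_iff_not_dvd).2 (fun hd => by have := Nat.le_of_dvd h0 hd; omega)
      exact Nat.Coprime.mul_left e1 e2
  · rw [Finset.card_image_of_injOn, Finset.card_product, hc1, hc2, pow_two]
    rintro ⟨p, p'⟩ h1 ⟨q, q'⟩ h2 h3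
    rw [Finset.coe_product, Set.mem_prod, Finset.mem_coe, Finset.mem_coe] at h1 h2
    dsimp only at h1 h2 h3
    have hpP := (hB p (hB1 h1.1)).1
    have hqP := (hB q (hB1 h2.1)).1
    have hq'P := (hB q' (h2B q' h2.2).1).1
    have hd : p ∣ q * q' := ⟨p', h3.symm⟩
    rcases (Nat.Prime.dvd_mul hpP).1 hd with h | h
    · have e := (Nat.prime_dvd_prime_iff_eq hpP hqP).1 h
      subst e
      have e2 := Nat.eq_of_mul_eq_mul_left hpP.pos h3
      rw [e2]
    · have e := (Nat.prime_dvd_prime_iff_eq hpP hq'P).1 h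
      exact absurd (e ▸ h1.1) (h2B q' h2.2).2



end Weird
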