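import Mathlib
import Pool.Agent.Helper146_Weird.Basic
set_option autoImplicit false
set_option linter.all false
open Finset
namespace Weird



/-
TARGET (the AP definitions above are not needed).  Proof: for p ∈ Q with m < p put d(p) = ∏ (Q.erase p), d(p) * p = ∏ Q = m*x, so
d(p) < x (x > 0), d(p) ≥ 4Y^2 by hbig, d(p) | ∏ Q, and p ↦ d(p) is injective (d(p) * p is constant and positive).
∑ d(p) = (∏ Q) * ∑ 1/p ≥ (∏ Q)/m = x (as reals).
-/
theorem small {Y : ℕ} (Q : Finset ℕ) (hp : ∀ p ∈ Q, p.Prime) (m x : ℕ)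
    (hmx : m * x = ∏ p ∈ Q, p) (hm : 0 < m)
    (hbig : ∀ p ∈ Q, 4 * Y ^ 2 ≤ ∏ q ∈ Q.erase p, q)
    (hR : (1 / (m:ℝ)) ≤ ∑ p ∈ Q.filter (fun p => m < p), (1 / (p:ℝ))) :
    x ≤ ∑ d ∈ (∏ p ∈ Q, p).divisors.filter (fun d => 4 * Y ^ 2 ≤ d ∧ d < x), d := by
  obtain ⟨P, hP⟩ : ∃ P, P = ∏ p ∈ Q, p := ⟨_, rfl⟩
  have hPpos : 0 < P := by
    rw [hP]
    exact Finset.prod_pos fun p h => (hp p h).pos
  have hx : 0 < x := by
    rcases Nat.eq_zero_or_pos x with h | h
    · rw [h, mul_zero, ← hP] at hmx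
      omega
    · exact h
  obtain ⟨d, hd⟩ : ∃ d : ℕ → ℕ, d = fun p => ∏ q ∈ Q.erase p, q := ⟨_, rfl⟩
  have hdp : ∀ p ∈ Q, p * d p = P := by
    intro p h
    rw [hd, hP]
    exact Finset.mul_prod_erase Q (fun q => q) h
  have hdpos : ∀ p ∈ Q, 0 < d p := by
    intro p h
    rcases Nat.eq_zero_or_pos (d p) with h0 | h0
    · have := hdp p h
      rw [h0, mul_zero] at this
      omega
    · exact h0
  have hinj : Set.InjOn d (Q.filter (fun p => m < p)) := by
    intro p hp1 p' hp2 h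
    rw [Finset.coe_filter] at hp1 hp2
    have h1 := hdp p hp1.1
    have h2 := hdp p' hp2.1
    rw [h] at h1
    exact Nat.eq_of_mul_eq_mul_right (hdpos p' hp2.1) (h1.trans h2.symm)
  have hsub : (Q.filter (fun p => m < p)).image d ⊆
      (∏ p ∈ Q, p).divisors.filter (fun d => 4 * Y ^ 2 ≤ d ∧ d < x) := by
    intro e he
    obtain ⟨p, hpm, rfl⟩ := Finset.mem_image.1 he
    obtain ⟨hpQ, hmp⟩ := Finset.mem_filter.1 hpm
    rw [Finset.mem_filter, Nat.mem_divisors, ← hP]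
    have h1 := hdp p hpQ
    have h0 := hdpos p hpQ
    refine ⟨⟨⟨p, by rw [← h1, mul_comm]⟩, hPpos.ne'⟩, ?_, ?_⟩
    · rw [hd]
      exact hbig p hpQ
    · by_contra hcon
      push Not at hcon
      have h2 : m * x < p * d p := by
        calc m * x ≤ m * d p := Nat.mul_le_mul_left _ hcon
          _ < p * d p := Nat.mul_lt_mul_of_pos_right hmp h0
      rw [h1, hmx, ← hP] at h2
      exact lt_irrefl _ h2
  have h3 : ∑ p ∈ Q.filter (fun p => m < p), d p ≤
      ∑ d ∈ (∏ p ∈ Q, p).divisors.filter (fun d => 4 * Y ^ 2 ≤ d ∧ d < x), d := by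
    rw [← Finset.sum_image (f := fun e => e) (g := d) hinj]
    exact Finset.sum_le_sum_of_subset hsub
  refine le_trans ?_ h3
  have hmR : (0 : ℝ) < m := by exact_mod_cast hm
  have h4 : (x : ℝ) ≤ ((∑ p ∈ Q.filter (fun p => m < p), d p : ℕ) : ℝ) := by
    push_cast
    have h5 : ∑ p ∈ Q.filter (fun p => m < p), (d p : ℝ) =
        (P : ℝ) * ∑ p ∈ Q.filter (fun p => m < p), (1 / (p : ℝ)) := by
      rw [Finset.mul_sum]
      refine Finset.sum_congr rfl fun p hpm => ?_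
      have hpQ := (Finset.mem_filter.1 hpm).1
      have hpR : (p : ℝ) ≠ 0 := by exact_mod_cast (hp p hpQ).pos.ne'
      have h6 : (p : ℝ) * d p = P := by exact_mod_cast hdp p hpQ
      rw [← h6]
      field_simp
    rw [h5]
    have h7 : (m : ℝ) * x = P := by
      rw [hP]
      exact_mod_cast hmx
    calc (x : ℝ) = (P : ℝ) * (1 / (m : ℝ)) := by
          rw [← h7]
          field_simp
      _ ≤ _ := mul_le_mul_of_nonneg_left hR (by positivity)
  exact_mod_cast h4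


end Weird
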