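import Mathlib
import Pool.Agent.Helper146_Weird.Basic
set_option autoImplicit false
set_option linter.all false
open Finset
namespace Weird



/-
TARGET (the AP definitions above are not needed).  Proof: for S ∈ powersetCard s B put d(S) = ∏ (Q \ S), so d(S) * ∏ S = ∏ Q = m*x.
∏ S ≥ Y^s > m, hence d(S) < x.  Q \ S ⊇ B \ S has ≥ 3 elements ≥ Y, so d(S) ≥ Y^3 ≥ 4 Y^2.  S ↦ d(S) is injective (products of
distinct primes: Nat.primeFactors_prod).  ∏ S ≤ (2Y)^s, so (2Y)^s * d(S) ≥ m*x; summing over the choose(B.card, s) sets,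
(2Y)^s * ∑ d(S) ≥ choose * m * x ≥ (2^s * Y) * Y^(s-1) * x = (2Y)^s * x; cancel (2Y)^s.
-/
theorem top {Y s : ℕ} (Q B : Finset ℕ) (hB : B ⊆ Q) (hp : ∀ p ∈ Q, p.Prime) (hY : 4 ≤ Y)
    (hBY : ∀ p ∈ B, Y ≤ p ∧ p < 2 * Y) (hs : s + 3 ≤ B.card) (hs1 : 1 ≤ s)
    (hC : 2 ^ s * Y ≤ (B.card).choose s) (m x : ℕ) (hmx : m * x = ∏ p ∈ Q, p)
    (hm1 : Y ^ (s - 1) ≤ m) (hm2 : m < Y ^ s) :
    x ≤ ∑ d ∈ (∏ p ∈ Q, p).divisors.filter (fun d => 4 * Y ^ 2 ≤ d ∧ d < x), d := by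
  classical
  have hQpos : ∀ T ⊆ Q, 0 < ∏ p ∈ T, p := fun T hT =>
    Finset.prod_pos fun p hp' => (hp p (hT hp')).pos
  have hQ0 : 0 < ∏ p ∈ Q, p := hQpos Q (Finset.Subset.refl _)
  have hx0 : 0 < x := by
    rcases Nat.eq_zero_or_pos x with h | h
    · rw [h, Nat.mul_zero] at hmx; omega
    · exact h
  have hY0 : 0 < Y := by omega
  set f : Finset ℕ → ℕ := fun S => ∏ p ∈ Q \ S, p with hf
  have hfm : ∀ S ∈ B.powersetCard s, f S * ∏ p ∈ S, p = m * x := by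
    intro S hS
    have hSB := (Finset.mem_powersetCard.1 hS).1
    rw [hmx, hf]
    exact Finset.prod_sdiff (hSB.trans hB)
  have hlow : ∀ S ∈ B.powersetCard s, Y ^ s ≤ ∏ p ∈ S, p := by
    intro S hS
    obtain ⟨hSB, hc⟩ := Finset.mem_powersetCard.1 hS
    rw [← hc]
    exact Finset.pow_card_le_prod S _ _ fun p hp' => (hBY p (hSB hp')).1
  have hup : ∀ S ∈ B.powersetCard s, ∏ p ∈ S, p ≤ (2 * Y) ^ s := by
    intro S hS
    obtain ⟨hSB, hc⟩ := Finset.mem_powersetCard.1 hS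
    rw [← hc]
    exact Finset.prod_le_pow_card S _ _ fun p hp' => (hBY p (hSB hp')).2.le
  have hlt : ∀ S ∈ B.powersetCard s, f S < x := by
    intro S hS
    by_contra hcon
    push Not at hcon
    have h1 := hfm S hS
    have h2 := hlow S hS
    have h3 : x * (∏ p ∈ S, p) ≤ f S * ∏ p ∈ S, p := Nat.mul_le_mul_right _ hcon
    have h4 : m * x < x * ∏ p ∈ S, p := by
      rw [Nat.mul_comm m x]
      exact Nat.mul_lt_mul_of_pos_left (by omega) hx0
    omega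
  have hge : ∀ S ∈ B.powersetCard s, 4 * Y ^ 2 ≤ f S := by
    intro S hS
    obtain ⟨hSB, hc⟩ := Finset.mem_powersetCard.1 hS
    have h1 : (B \ S).card = B.card - s := by rw [Finset.card_sdiff_of_subset hSB, hc]
    have h2 : Y ^ (B \ S).card ≤ ∏ p ∈ B \ S, p :=
      Finset.pow_card_le_prod _ _ _ fun p hp' => (hBY p (Finset.mem_sdiff.1 hp').1).1
    have h3 : ∏ p ∈ B \ S, p ≤ f S := by
      refine Finset.prod_le_prod_of_subset_of_one_le' (Finset.sdiff_subset_sdiff hB (Finset.Subset.refl _)) ?_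
      intro p hp' _
      exact (hp p (Finset.mem_sdiff.1 hp').1).one_lt.le
    have h4 : Y ^ 3 ≤ Y ^ (B \ S).card := Nat.pow_le_pow_right hY0 (by omega)
    have h5 : 4 * Y ^ 2 ≤ Y ^ 3 := by
      rw [pow_succ Y 2, Nat.mul_comm]
      exact Nat.mul_le_mul_left _ hY
    omega
  have hinj : Set.InjOn f (B.powersetCard s : Set (Finset ℕ)) := by
    intro S hS T hT h
    rw [Finset.mem_coe] at hS hT
    have hSB := (Finset.mem_powersetCard.1 hS).1
    have hTB := (Finset.mem_powersetCard.1 hT).1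
    have e1 : (∏ p ∈ Q \ S, p).primeFactors = Q \ S :=
      Nat.primeFactors_prod fun p hp' => hp p (Finset.mem_sdiff.1 hp').1
    have e2 : (∏ p ∈ Q \ T, p).primeFactors = Q \ T :=
      Nat.primeFactors_prod fun p hp' => hp p (Finset.mem_sdiff.1 hp').1
    have h' : (∏ p ∈ Q \ S, p) = ∏ p ∈ Q \ T, p := h
    have e3 : Q \ S = Q \ T := by rw [← e1, ← e2, h']
    rw [← Finset.sdiff_sdiff_eq_self (hSB.trans hB), ← Finset.sdiff_sdiff_eq_self (hTB.trans hB), e3]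
  have hsub : (B.powersetCard s).image f ⊆
      (∏ p ∈ Q, p).divisors.filter (fun d => 4 * Y ^ 2 ≤ d ∧ d < x) := by
    intro d hd
    obtain ⟨S, hS, rfl⟩ := Finset.mem_image.1 hd
    rw [Finset.mem_filter, Nat.mem_divisors]
    refine ⟨⟨?_, hQ0.ne'⟩, hge S hS, hlt S hS⟩
    rw [← hmx, ← hfm S hS]
    exact Nat.dvd_mul_right _ _
  have hsum : ∑ S ∈ B.powersetCard s, f S ≤
      ∑ d ∈ (∏ p ∈ Q, p).divisors.filter (fun d => 4 * Y ^ 2 ≤ d ∧ d < x), d := by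
    rw [← Finset.sum_image (f := fun d => d) (g := f) hinj]
    exact Finset.sum_le_sum_of_subset hsub
  refine le_trans ?_ hsum
  have h2Y : 0 < (2 * Y) ^ s := Nat.pow_pos (by omega)
  refine Nat.le_of_mul_le_mul_left ?_ h2Y
  rw [Finset.mul_sum]
  have h6 : ∑ S ∈ B.powersetCard s, m * x ≤ ∑ S ∈ B.powersetCard s, (2 * Y) ^ s * f S := by
    refine Finset.sum_le_sum fun S hS => ?_
    rw [← hfm S hS, Nat.mul_comm]
    exact Nat.mul_le_mul_right _ (hup S hS)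
  refine le_trans ?_ h6
  rw [Finset.sum_const, Finset.card_powersetCard, smul_eq_mul]
  have h7 : (2 * Y) ^ s * x = (2 ^ s * Y) * (Y ^ (s - 1) * x) := by
    obtain ⟨t, rfl⟩ : ∃ t, s = t + 1 := ⟨s - 1, by omega⟩
    simp only [Nat.add_sub_cancel]
    ring
  rw [h7]
  exact Nat.mul_le_mul hC (Nat.mul_le_mul_right _ hm1)


end Weird
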