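import Mathlib
import Pool.Agent.Helper146_Weird.Basic
import Pool.Agent.Helper146_Weird.Num
import Pool.Agent.Helper146_Weird.Base
import Pool.Agent.Helper146_Weird.Bottom
import Pool.Agent.Helper146_Weird.Top
import Pool.Agent.Helper146_Weird.Small
import Pool.Agent.Helper146_Weird.Prodset
set_option autoImplicit false
set_option linter.all false
open Finset
namespace Weird

theorem pow_le_prod_of_subset {Y : ℕ} (S T : Finset ℕ) (hST : S ⊆ T) (hS : ∀ p ∈ S, Y ≤ p)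
    (hT : ∀ p ∈ T, 1 ≤ p) (r : ℕ) (hr : r ≤ S.card) (hY : 1 ≤ Y) : Y ^ r ≤ ∏ p ∈ T, p := by
  calc Y ^ r ≤ Y ^ S.card := Nat.pow_le_pow_right hY hr
    _ = ∏ p ∈ S, Y := by rw [prod_const]
    _ ≤ ∏ p ∈ S, p := prod_le_prod' hS
    _ ≤ ∏ p ∈ T, p := prod_le_prod_of_subset_of_one_le' hST (fun p hp _ => hT p hp)

theorem core (i : ℕ) (hi : 1000 ≤ i) (Q : Finset ℕ)
    (hQ : ∀ p ∈ Q, p.Prime ∧ 2 ^ 1000 ≤ p ∧ p < 2 ^ (i + 1))
    (hsum : (5 / 4 : ℝ) ≤ ∑ p ∈ Q, (1 / (p:ℝ)))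
    (hB : 2 ^ (i + 1) ≤ i * (i + 1) * (Q.filter (fun p => 2 ^ i ≤ p)).card)
    (hR : ∀ m : ℕ, 2 ^ 1000 ≤ m → m < 2 ^ i →
        (1 / (m:ℝ)) ≤ ∑ p ∈ Q.filter (fun p => m < p), (1 / (p:ℝ))) :
    ∃ S ⊆ (∏ p ∈ Q, p).properDivisors, ∑ d ∈ S, d = ∏ p ∈ Q, p := by
  classical
  obtain ⟨Y, hYdef⟩ : ∃ Y, Y = 2 ^ i := ⟨_, rfl⟩
  rw [← hYdef] at hB hR
  obtain ⟨B, hBdef⟩ : ∃ B, B = Q.filter (fun p => Y ≤ p) := ⟨_, rfl⟩
  rw [← hBdef] at hB
  obtain ⟨J, hJdef⟩ : ∃ J, J = B.card := ⟨_, rfl⟩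
  rw [← hJdef] at hB
  obtain ⟨P, hPdef⟩ : ∃ P, P = ∏ p ∈ Q, p := ⟨_, rfl⟩
  have hnum := num1 i hi
  rw [← hYdef] at hnum
  have h2Y : 2 ^ (i + 1) = 2 * Y := by rw [hYdef]; ring
  rw [h2Y] at hB
  have hQp : ∀ p ∈ Q, p.Prime := fun p hp => (hQ p hp).1
  have hQ1 : ∀ p ∈ Q, 1 ≤ p := fun p hp => (hQp p hp).one_lt.le
  have hQ2 : ∀ p ∈ Q, p < 2 * Y := fun p hp => by rw [← h2Y]; exact (hQ p hp).2.2
  have hBQ : B ⊆ Q := by rw [hBdef]; exact filter_subset _ _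
  have hBY : ∀ p ∈ B, Y ≤ p ∧ p < 2 * Y := by
    intro p hp; rw [hBdef, mem_filter] at hp; exact ⟨hp.2, hQ2 p hp.1⟩
  -- numeric facts
  obtain ⟨w, hw⟩ : ∃ w, w = i + 1 := ⟨_, rfl⟩
  have hw1 : 1001 ≤ w := by omega
  rw [← hw] at hnum
  have hww : ∀ a b : ℕ, a ≤ b → w ^ a ≤ w ^ b := fun a b h => Nat.pow_le_pow_right (by omega) h
  have hY1000 : 1000 ≤ Y := by
    have : 1 ≤ w ^ 30 := Nat.one_le_pow _ _ (by omega)
    nlinarith
  have hJ : 2 * Y ≤ J * w ^ 2 := by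
    calc 2 * Y ≤ i * (i + 1) * J := hB
      _ ≤ w * w * J := by rw [hw]; exact Nat.mul_le_mul_right _ (Nat.mul_le_mul_right _ (by omega))
      _ = J * w ^ 2 := by ring
  have hJw : w ≤ J := by
    by_contra hcon
    push Not at hcon
    have : J * w ^ 2 ≤ w * w ^ 2 := Nat.mul_le_mul_right _ hcon.le
    have h3 : w ^ 3 ≤ w ^ 30 := hww 3 30 (by norm_num)
    have : w ^ 3 = w * w ^ 2 := by ring
    have : 1 ≤ w ^ 30 := Nat.one_le_pow _ _ (by omega)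
    nlinarith
  have hJw2 : 2 * Y ≤ (J - 1) * w ^ 2 := by
    have h1 : 2 * Y ≤ (w - 1) * w * J := by
      have : i = w - 1 := by omega
      rw [← this, hw]; exact hB
    have h2 : (w - 1) * w * J ≤ (J - 1) * w ^ 2 := by
      obtain ⟨v, rfl⟩ : ∃ v, w = v + 1 := ⟨w - 1, by omega⟩
      obtain ⟨K, rfl⟩ : ∃ K, J = K + 1 := ⟨J - 1, by omega⟩
      simp only [Nat.add_sub_cancel]
      have hvK : v ≤ K := by omega
      have h3 : v * (K + 1) ≤ K * (v + 1) := by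
        rw [Nat.mul_add, Nat.mul_add, Nat.mul_comm v K]; omega
      calc v * (v + 1) * (K + 1) = (v + 1) * (v * (K + 1)) := by ring
        _ ≤ (v + 1) * (K * (v + 1)) := Nat.mul_le_mul_left _ h3
        _ = K * (v + 1) ^ 2 := by ring
    exact h1.trans h2
  have hch2 : 4 * Y ≤ J.choose 2 := by
    rw [Nat.choose_two_right, Nat.le_div_iff_mul_le (by norm_num)]
    by_contra hcon
    push Not at hcon
    have h1 : J * w ^ 2 * ((J - 1) * w ^ 2) ≥ 2 * Y * (2 * Y) := Nat.mul_le_mul hJ hJw2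
    have h2 : J * w ^ 2 * ((J - 1) * w ^ 2) = (J * (J - 1)) * w ^ 4 := by ring
    rw [h2] at h1
    have h3 : J * (J - 1) * w ^ 4 ≤ (8 * Y) * w ^ 4 := Nat.mul_le_mul_right _ (by omega)
    have h4 : w ^ 4 ≤ w ^ 30 := hww 4 30 (by norm_num)
    have h5 : 4 * Y * Y ≤ 8 * Y * w ^ 4 := by nlinarith
    have h6 : Y ≤ 2 * w ^ 4 := by
      have : Y * (4 * Y) ≤ Y * (8 * w ^ 4) := by nlinarith
      have := Nat.le_of_mul_le_mul_left this (by omega)
      omega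
    have : 1 ≤ w ^ 30 := Nat.one_le_pow _ _ (by omega)
    nlinarith
  -- K
  obtain ⟨c, hc⟩ : ∃ c, c = 2 ^ (i / 3) := ⟨_, rfl⟩
  have hc1 : 1 ≤ c := by rw [hc]; exact Nat.one_le_two_pow
  have hYc : Y ≤ 4 * c ^ 3 := by
    rw [hYdef, hc, ← pow_mul, show (4:ℕ) = 2 ^ 2 by norm_num, ← pow_add]
    exact Nat.pow_le_pow_right (by norm_num) (by omega)
  have hc2 : 2 ^ 10 * w ^ 2 ≤ c ^ 2 := by
    have h1 := num2 (i / 3) (by omega)
    have h2 : w ≤ 3 * (i / 3) + 3 := by omega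
    calc 2 ^ 10 * w ^ 2 ≤ 2 ^ 10 * (3 * (i / 3) + 3) ^ 2 :=
          Nat.mul_le_mul_left _ (Nat.pow_le_pow_left h2 2)
      _ ≤ _ := h1
      _ = c ^ 2 := by rw [hc, ← pow_mul]; ring_nf
  have hcY : c ^ 3 ≤ Y := by
    rw [hYdef, hc, ← pow_mul]; exact Nat.pow_le_pow_right (by norm_num) (by omega)
  obtain ⟨K, hK⟩ : ∃ K, K = 16 * c := ⟨_, rfl⟩
  have hKJ : 6 * K + 3 ≤ J := by
    by_contra hcon
    push Not at hcon
    have h1 : J ≤ 100 * c := by omega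
    have h2 : J * w ^ 2 ≤ 100 * c * w ^ 2 := Nat.mul_le_mul_right _ h1
    have h3 : 2 * c ^ 3 ≤ 100 * c * w ^ 2 := by omega
    have h4 : c * (2 * c ^ 2) ≤ c * (100 * w ^ 2) := by nlinarith
    have h5 := Nat.le_of_mul_le_mul_left h4 (by omega)
    have : 1 ≤ w ^ 2 := Nat.one_le_pow _ _ (by omega)
    omega
  have hKch : 16 * Y ≤ K.choose 3 := by
    rw [hK]
    have := choose_three c hc1
    omega
  obtain ⟨A, hAB, hAK⟩ := Finset.exists_subset_card_eq (show K ≤ B.card by omega)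
  -- P facts
  have hP0 : 0 < P := by rw [hPdef]; exact prod_pos (fun p hp => hQ1 p hp)
  have hPY : Y ^ 5 ≤ P := by
    rw [hPdef]
    exact pow_le_prod_of_subset B Q hBQ (fun p hp => (hBY p hp).1) hQ1 5 (by omega) (by omega)
  have hbig : ∀ p ∈ Q, 4 * Y ^ 2 ≤ ∏ q ∈ Q.erase p, q := by
    intro p hp
    have h1 := pow_le_prod_of_subset (Y := Y) (B.erase p) (Q.erase p) (erase_subset_erase _ hBQ)
      (fun q hq => (hBY q (mem_of_mem_erase hq)).1) (fun q hq => hQ1 q (mem_of_mem_erase hq)) 3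
      (by have := Finset.pred_card_le_card_erase (s := B) (a := p); omega) (by omega)
    calc 4 * Y ^ 2 ≤ Y * Y ^ 2 := Nat.mul_le_mul_right _ (by omega)
      _ = Y ^ 3 := by ring
      _ ≤ _ := h1
  -- X
  obtain ⟨X, hX, hXc⟩ := prodset B (fun p hp => ⟨hQp p (hBQ hp), hBY p hp⟩)
  rw [← hJdef] at hXc
  have hXcard : Y ^ 2 ≤ w ^ 4 * X.card := by
    have h1 : Y ≤ (J / 2) * w ^ 2 := by
      have : J - 1 ≤ 2 * (J / 2) := by omega
      have h2 : (J - 1) * w ^ 2 ≤ 2 * (J / 2) * w ^ 2 := Nat.mul_le_mul_right _ this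
      have h3 : 2 * Y ≤ 2 * ((J / 2) * w ^ 2) := by
        calc 2 * Y ≤ (J - 1) * w ^ 2 := hJw2
          _ ≤ 2 * (J / 2) * w ^ 2 := h2
          _ = _ := by ring
      omega
    calc Y ^ 2 ≤ ((J / 2) * w ^ 2) ^ 2 := Nat.pow_le_pow_left h1 2
      _ = w ^ 4 * (J / 2) ^ 2 := by ring
      _ ≤ _ := Nat.mul_le_mul_left _ hXc
  have hw30 : w ^ 24 ≤ w ^ 30 := hww 24 30 (by norm_num)
  obtain ⟨u, hu⟩ := base (N := Y ^ 2) (μ := w ^ 4) (by positivity) X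
    (fun x hx => ⟨(hX x hx).1, (hX x hx).2.1⟩) hXcard
    (by
      have h1 : (w ^ 4) ^ 6 = w ^ 24 := by ring
      rw [h1]
      calc 2 ^ 34 * w ^ 24 ≤ 2 ^ 40 * w ^ 30 := Nat.mul_le_mul (by norm_num) hw30
        _ ≤ Y := hnum
        _ ≤ Y ^ 2 := Nat.le_self_pow (by norm_num) _)
    (by
      intro x hx h h0 h1
      refine (hX x hx).2.2.2 h h0 (lt_of_lt_of_le h1 ?_)
      calc 32 * w ^ 4 ≤ 2 ^ 40 * w ^ 30 := Nat.mul_le_mul (by norm_num) (hww 4 30 (by norm_num))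
        _ ≤ Y := hnum)
  have hlen : 8 * Y ^ 3 ≤ Y ^ 2 * X.card / 2 := by
    rw [Nat.le_div_iff_mul_le (by norm_num)]
    have h1 : 16 * w ^ 4 ≤ Y := by
      calc 16 * w ^ 4 ≤ 2 ^ 40 * w ^ 30 := Nat.mul_le_mul (by norm_num) (hww 4 30 (by norm_num))
        _ ≤ Y := hnum
    have h2 : w ^ 4 * (8 * Y ^ 3 * 2) ≤ w ^ 4 * (Y ^ 2 * X.card) := by
      calc w ^ 4 * (8 * Y ^ 3 * 2) = (16 * w ^ 4) * Y ^ 3 := by ring
        _ ≤ Y * Y ^ 3 := Nat.mul_le_mul_right _ h1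
        _ = Y ^ 2 * Y ^ 2 := by ring
        _ ≤ Y ^ 2 * (w ^ 4 * X.card) := Nat.mul_le_mul_left _ hXcard
        _ = _ := by ring
    exact Nat.le_of_mul_le_mul_left h2 (by positivity)
  have hu1 : AP X u 1 (8 * Y ^ 3) := hu.mono (Finset.Subset.refl _) hlen
  -- D
  obtain ⟨D, hD⟩ : ∃ D, D = P.divisors.filter (fun d => 4 * Y ^ 2 ≤ d ∧ d < P) := ⟨_, rfl⟩
  have hXD : Disjoint X D := by
    rw [Finset.disjoint_left]
    intro x hx hxD
    rw [hD, mem_filter] at hxD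
    have := (hX x hx).2.1
    omega
  have hcond : ∀ x ∈ D, x ≤ 8 * Y ^ 3 + 1 + ∑ d ∈ D.filter (· < x), d := by
    intro x hx
    by_cases hx8 : x ≤ 8 * Y ^ 3
    · omega
    push Not at hx8
    have hxD := hx
    rw [hD, mem_filter, Nat.mem_divisors] at hxD
    obtain ⟨⟨hxP, -⟩, hx4, hxlt⟩ := hxD
    have hfil : D.filter (· < x) = (∏ p ∈ Q, p).divisors.filter (fun d => 4 * Y ^ 2 ≤ d ∧ d < x) := by
      rw [← hPdef, hD]
      ext d
      simp only [mem_filter]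
      constructor
      · rintro ⟨⟨h1, h2, h3⟩, h4⟩; exact ⟨h1, h2, h4⟩
      · rintro ⟨h1, h2, h3⟩; exact ⟨⟨h1, h2, by omega⟩, h3⟩
    suffices h : x ≤ ∑ d ∈ (∏ p ∈ Q, p).divisors.filter (fun d => 4 * Y ^ 2 ≤ d ∧ d < x), d by
      rw [hfil]; omega
    obtain ⟨m, hm⟩ := hxP
    have hmx : m * x = ∏ p ∈ Q, p := by rw [← hPdef, hm]; ring
    have hm1 : 1 < m := by
      rcases Nat.lt_or_ge 1 m with h | h
      · exact h
      · exfalso
        have : x * m ≤ x * 1 := Nat.mul_le_mul_left _ h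
        omega
    by_cases hmY : m < Y
    · refine small Q hQp m x hmx (by omega) hbig (hR m ?_ hmY)
      obtain ⟨p, hp, hpm⟩ := Nat.exists_prime_and_dvd (show m ≠ 1 by omega)
      have h1 : p ∣ ∏ p ∈ Q, p := by rw [← hmx]; exact hpm.mul_right _
      obtain ⟨q, hq, hpq⟩ := (Prime.dvd_finset_prod_iff hp.prime _).1 h1
      have : p = q := (Nat.prime_dvd_prime_iff_eq hp (hQp q hq)).1 hpq
      rw [this] at hpm
      exact ((hQ q hq).2.1).trans (Nat.le_of_dvd (by omega) hpm)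
    push Not at hmY
    by_cases hxb : x ≤ 16 * Y ^ 4 * ∏ p ∈ Q \ A, p
    · exact bottom Q A (hAB.trans hBQ) hQp (by omega) hQ2 (fun p hp => (hBY p (hAB hp)).1)
        (by rw [hAK]; exact hKch) x hx8 hxb
    push Not at hxb
    have hAprod : ∏ p ∈ A, p ≤ (2 * Y) ^ K := by
      rw [← hAK]
      exact Finset.prod_le_pow_card _ _ _ (fun p hp => (hBY p (hAB hp)).2.le)
    have hsplit : (∏ p ∈ Q \ A, p) * ∏ p ∈ A, p = ∏ p ∈ Q, p := prod_sdiff (hAB.trans hBQ)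
    have hmK : m < (2 * Y) ^ K := by
      by_contra hcon
      push Not at hcon
      have h1 : (2 * Y) ^ K * x ≤ m * x := Nat.mul_le_mul_right _ hcon
      rw [hmx, ← hsplit] at h1
      have h2 : (∏ p ∈ Q \ A, p) * ∏ p ∈ A, p ≤ (∏ p ∈ Q \ A, p) * (2 * Y) ^ K :=
        Nat.mul_le_mul_left _ hAprod
      have h3 : (2 * Y) ^ K * x ≤ (2 * Y) ^ K * (∏ p ∈ Q \ A, p) := by
        calc _ ≤ _ := h1
          _ ≤ _ := h2
          _ = _ := by ring
      have h4 := Nat.le_of_mul_le_mul_left h3 (by positivity)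
      have h5 : 1 * ∏ p ∈ Q \ A, p ≤ 16 * Y ^ 4 * ∏ p ∈ Q \ A, p :=
        Nat.mul_le_mul_right _ (by
          have : 1 ≤ Y ^ 4 := Nat.one_le_pow _ _ (by omega)
          omega)
      omega
    have hmK2 : m < Y ^ (2 * K) := by
      refine lt_of_lt_of_le hmK ?_
      rw [pow_mul]
      exact Nat.pow_le_pow_left (by nlinarith) K
    -- s
    have hY2 : 1 < Y := by omega
    have hs1 : Y ^ (Nat.log Y m) ≤ m := Nat.pow_log_le_self Y (by omega)
    have hs2 : m < Y ^ (Nat.log Y m + 1) := Nat.lt_pow_succ_log_self hY2 m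
    have hs3 : 1 ≤ Nat.log Y m := by
      have := Nat.log_pos hY2 hmY
      omega
    have hs4 : Nat.log Y m < 2 * K := Nat.log_lt_of_lt_pow (by omega) hmK2
    refine top (s := Nat.log Y m + 1) Q B hBQ hQp (by omega) hBY (by omega) (by omega) ?_ m x hmx
      (by simpa using hs1) hs2
    rw [← hJdef]
    exact choose_growth hch2 (2 * K) (by omega) _ (by omega) (by omega)
  have hfin := AP.chain hu1 hXD hcond
  -- total
  have hDP : P ≤ ∑ d ∈ D, d := by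
    have h := small (Y := Y) Q hQp 1 P (by rw [one_mul, hPdef]) one_pos hbig (by
      have h1 : Q.filter (fun p => 1 < p) = Q := filter_true_of_mem (fun p hp => (hQp p hp).one_lt)
      rw [h1]
      have : (1 / ((1:ℕ):ℝ)) = 1 := by norm_num
      rw [this]; linarith)
    rw [hD]; rw [← hPdef] at h; exact h
  have huP : u ≤ P := by
    obtain ⟨S, hS, hsS⟩ := hu1 0 (by omega)
    have h1 : u = ∑ x ∈ S, x := by rw [hsS]; ring
    rw [h1]
    calc ∑ x ∈ S, x ≤ ∑ x ∈ X, x := sum_le_sum_of_subset hS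
      _ ≤ ∑ x ∈ X, 4 * Y ^ 2 := sum_le_sum (fun x hx => ((hX x hx).2.1).le)
      _ = X.card * (4 * Y ^ 2) := by rw [sum_const, smul_eq_mul]
      _ ≤ (4 * Y ^ 2) * (4 * Y ^ 2) := by
          refine Nat.mul_le_mul_right _ ?_
          calc X.card ≤ (range (4 * Y ^ 2)).card :=
                card_le_card (fun x hx => mem_range.2 (hX x hx).2.1)
            _ = _ := card_range _
      _ = 16 * Y ^ 4 := by ring
      _ ≤ Y * Y ^ 4 := Nat.mul_le_mul_right _ (by omega)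
      _ = Y ^ 5 := by ring
      _ ≤ P := hPY
  obtain ⟨S, hS, hsS⟩ := hfin (P - u) (by omega)
  refine ⟨S, ?_, ?_⟩
  · intro d hd
    rw [Nat.mem_properDivisors, ← hPdef]
    rcases mem_union.1 (hS hd) with h | h
    · refine ⟨?_, ?_⟩
      · refine (hX d h).2.2.1.trans ?_
        rw [hPdef]
        exact prod_dvd_prod_of_subset _ _ _ hBQ
      · have h1 := (hX d h).2.1
        have : 4 * Y ^ 2 ≤ Y ^ 5 := by
          calc 4 * Y ^ 2 ≤ Y ^ 3 * Y ^ 2 := Nat.mul_le_mul_right _ (by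
                calc 4 ≤ Y := by omega
                  _ ≤ Y ^ 3 := Nat.le_self_pow (by norm_num) _)
            _ = _ := by ring
        omega
    · rw [hD, mem_filter, Nat.mem_divisors] at h
      exact ⟨h.1.1, h.2.2⟩
  · rw [hsS, ← hPdef]; omega

end Weird
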