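import Mathlib
import Pool.Agent.Helper146_Weird.Basic
set_option autoImplicit false
set_option linter.all false
open Finset
namespace Weird



/-
TARGET (the AP definitions above are not needed).  Proof: σ is multiplicative (Nat.recOnPosPrimePosCoprime or
Nat.Coprime.sum_divisors_mul / ArithmeticFunction.isMultiplicative_sigma), and for a prime power
σ(p^k) = 1 + p + ... + p^k ≤ p^k * p/(p-1) ≤ p^k * (1 + 2/p).  So σ(n) ≤ n * ∏_{p | n} (1 + 2/p) ≤ n * exp(2 ∑ 1/p).
-/
theorem mass (n : ℕ) (hn : 0 < n) :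
    ((∑ d ∈ n.divisors, d : ℕ) : ℝ) / n ≤ Real.exp (2 * ∑ p ∈ n.primeFactors, (1 / (p:ℝ))) := by
  induction n using Nat.recOnPosPrimePosCoprime with
  | zero => exact absurd hn (lt_irrefl 0)
  | one => simp
  | prime_pow p k hp hk =>
    have hp2 : (2 : ℝ) ≤ p := by exact_mod_cast hp.two_le
    have hpk : (0 : ℝ) < ((p ^ k : ℕ) : ℝ) := by exact_mod_cast hn
    rw [Nat.primeFactors_prime_pow hk.ne' hp, Finset.sum_singleton, Nat.sum_divisors_prime_pow hp]
    have hg : (((∑ i ∈ Finset.range (k + 1), p ^ i : ℕ)) : ℝ) * ((p : ℝ) - 1) = (p : ℝ) ^ (k + 1) - 1 := by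
      push_cast
      exact geom_sum_mul (p : ℝ) (k + 1)
    have h1 : (((∑ i ∈ Finset.range (k + 1), p ^ i : ℕ)) : ℝ) / ((p ^ k : ℕ) : ℝ) ≤ 1 + 2 / p := by
      rw [div_le_iff₀ hpk]
      have hp1 : (0 : ℝ) < (p : ℝ) - 1 := by linarith
      rw [← mul_le_mul_iff_left₀ hp1, hg]
      push_cast
      have h3 : (1 : ℝ) ≤ (1 + 2 / p) * ((p : ℝ) - 1) / p := by
        rw [le_div_iff₀ (by linarith)]
        have : (1 + 2 / (p : ℝ)) * ((p : ℝ) - 1) = p + 1 - 2 / p := by
          field_simp; ring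
        rw [this]
        have : 2 / (p : ℝ) ≤ 1 := by rw [div_le_one (by linarith)]; exact hp2
        linarith
      have h4 : (p : ℝ) ^ (k + 1) ≤ (p : ℝ) ^ (k + 1) * ((1 + 2 / p) * ((p : ℝ) - 1) / p) := by
        nlinarith [pow_pos (by linarith : (0 : ℝ) < p) (k + 1)]
      have h5 : (p : ℝ) ^ (k + 1) * ((1 + 2 / p) * ((p : ℝ) - 1) / p) = (1 + 2 / (p:ℝ)) * (p : ℝ) ^ k * ((p : ℝ) - 1) := by
        field_simp; ring
      linarith
    refine h1.trans ?_
    have h6 := Real.add_one_le_exp (2 * (1 / (p : ℝ)))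
    have h7 : 2 * (1 / (p : ℝ)) = 2 / p := by ring
    rw [h7] at h6 ⊢
    linarith
  | coprime a b ha hb hab iha ihb =>
    have ha0 : 0 < a := by omega
    have hb0 : 0 < b := by omega
    rw [Nat.Coprime.sum_divisors_mul hab, Nat.Coprime.primeFactors_mul hab,
      Finset.sum_union (Nat.Coprime.disjoint_primeFactors hab), mul_add, Real.exp_add]
    push_cast
    have hdiv : ((∑ d ∈ a.divisors, (d : ℝ)) * (∑ d ∈ b.divisors, (d : ℝ))) / ((a : ℝ) * b) =
        ((∑ d ∈ a.divisors, (d : ℝ)) / a) * ((∑ d ∈ b.divisors, (d : ℝ)) / b) := by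
      rw [mul_div_mul_comm]
    rw [hdiv]
    have h1 := iha ha0
    have h2 := ihb hb0
    push_cast at h1 h2
    exact mul_le_mul h1 h2 (by positivity) (Real.exp_pos _).le


end Weird
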