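import Mathlib
import Pool.Agent.Helper146_Weird.Basic
set_option autoImplicit false
set_option linter.all false
open Finset
namespace Weird



/-
TARGET (the AP definitions above are not needed).  Proof: P := primes p | n with 2^1000 ≤ p.  ∑_{p | n, p < 2^1000} 1/p ≤ 2^1000
(each term ≤ 1, fewer than 2^1000 terms), so ∑_{p ∈ P} 1/p ≥ 2.  Let M(j) = ∑_{p ∈ P, p < 2^j} 1/p.  For 2^j > n,
M(j) ≥ 2 > 3/2 - 2/j, so there is a least i ≥ 1000 with M(i+1) > 3/2 - 2/(i+1).  Hence M(j) ≤ 3/2 - 2/j for all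
1000 ≤ j ≤ i (j = 1000: M = 0).  Q = {p ∈ P : p < 2^(i+1)}: ∑ = M(i+1) > 3/2 - 2/(i+1) ≥ 5/4.
Block: M(i+1) - M(i) > 2/i - 2/(i+1) = 2/(i(i+1)), and it is ≤ card/2^i; so 2^(i+1) ≤ i(i+1) card.
Last claim: 2^1000 ≤ m < 2^i; let 2^(j-1) ≤ m < 2^j, 1001 ≤ j ≤ i.  The primes of Q that are ≥ 2^j are > m, their mass is
M(i+1) - M(j) > 2/j - 2/(i+1) ≥ 2/j - 2/(j+1) = 2/(j(j+1)) ≥ 2/2^j = 1/2^(j-1) ≥ 1/m, as 2^j ≥ j(j+1).
-/
theorem scale_aux (K n : ℕ) (hK : 8 ≤ K) (hn : 0 < n)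
    (hσ : (2:ℝ) ^ K + 2 ≤ ∑ p ∈ n.primeFactors, (1 / (p:ℝ))) :
    ∃ i : ℕ, K ≤ i ∧ ∃ Q : Finset ℕ,
      (∀ p ∈ Q, p.Prime ∧ p ∣ n ∧ 2 ^ K ≤ p ∧ p < 2 ^ (i + 1)) ∧
      (5 / 4 : ℝ) ≤ ∑ p ∈ Q, (1 / (p:ℝ)) ∧
      2 ^ (i + 1) ≤ i * (i + 1) * (Q.filter (fun p => 2 ^ i ≤ p)).card ∧
      ∀ m : ℕ, 2 ^ K ≤ m → m < 2 ^ i →
        (1 / (m:ℝ)) ≤ ∑ p ∈ Q.filter (fun p => m < p), (1 / (p:ℝ)) := by
  classical
  obtain ⟨P, hP⟩ : ∃ P : Finset ℕ, P = n.primeFactors.filter (fun p => 2 ^ K ≤ p) := ⟨_, rfl⟩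
  let M : ℕ → ℝ := fun j => ∑ p ∈ P.filter (fun p => p < 2 ^ j), (1 / (p:ℝ))
  have hPmem : ∀ p ∈ P, p.Prime ∧ p ∣ n ∧ 2 ^ K ≤ p := by
    intro p hp
    rw [hP, mem_filter, Nat.mem_primeFactors] at hp
    exact ⟨hp.1.1, hp.1.2.1, hp.2⟩
  have h1 : ∑ p ∈ n.primeFactors.filter (fun p => ¬ 2 ^ K ≤ p), (1 / (p:ℝ)) ≤ 2 ^ K := by
    calc ∑ p ∈ n.primeFactors.filter (fun p => ¬ 2 ^ K ≤ p), (1 / (p:ℝ))
        ≤ ∑ p ∈ n.primeFactors.filter (fun p => ¬ 2 ^ K ≤ p), (1:ℝ) := by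
          refine sum_le_sum fun p hp => ?_
          have hp' : p.Prime := Nat.prime_of_mem_primeFactors (mem_filter.1 hp).1
          have : (1:ℝ) ≤ p := by exact_mod_cast hp'.one_lt.le
          rw [div_le_one (by linarith)]
          exact this
      _ = ((n.primeFactors.filter (fun p => ¬ 2 ^ K ≤ p)).card : ℝ) := by simp
      _ ≤ ((range (2 ^ K)).card : ℝ) := by
          exact_mod_cast card_le_card (fun p hp => by
            rw [mem_filter] at hp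
            exact mem_range.2 (not_le.1 hp.2))
      _ = 2 ^ K := by simp
  have h2 : (2:ℝ) ≤ ∑ p ∈ P, (1 / (p:ℝ)) := by
    have := sum_filter_add_sum_filter_not n.primeFactors (fun p => 2 ^ K ≤ p)
      (fun p => (1 / (p:ℝ)))
    rw [← hP] at this
    linarith
  have hM0 : M K = 0 := by
    have : P.filter (fun p => p < 2 ^ K) = ∅ := by
      rw [filter_eq_empty_iff]
      intro p hp
      exact not_lt.2 (hPmem p hp).2.2
    simp only [M, this, sum_empty]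
  have hMbig : M (n + K + 1) = ∑ p ∈ P, (1 / (p:ℝ)) := by
    have : P.filter (fun p => p < 2 ^ (n + K + 1)) = P := by
      rw [filter_eq_self]
      intro p hp
      calc p ≤ n := Nat.le_of_dvd hn (hPmem p hp).2.1
        _ < 2 ^ n := Nat.lt_two_pow_self
        _ ≤ 2 ^ (n + K + 1) := Nat.pow_le_pow_right (by norm_num) (by omega)
    simp only [M, this]
  have hMsplit : ∀ j k : ℕ, j ≤ k → M k - M j =
      ∑ p ∈ P.filter (fun p => p < 2 ^ k ∧ 2 ^ j ≤ p), (1 / (p:ℝ)) := by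
    intro j k hjk
    have e := sum_filter_add_sum_filter_not (P.filter (fun p => p < 2 ^ k)) (fun p => p < 2 ^ j)
      (fun p => (1 / (p:ℝ)))
    rw [filter_filter, filter_filter] at e
    have e1 : P.filter (fun p => p < 2 ^ k ∧ p < 2 ^ j) = P.filter (fun p => p < 2 ^ j) := by
      refine filter_congr fun p _ => ?_
      constructor
      · exact fun h => h.2
      · exact fun h => ⟨h.trans_le (Nat.pow_le_pow_right (by norm_num) hjk), h⟩
    have e2 : P.filter (fun p => p < 2 ^ k ∧ ¬ p < 2 ^ j) =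
        P.filter (fun p => p < 2 ^ k ∧ 2 ^ j ≤ p) := by
      refine filter_congr fun p _ => ?_
      rw [not_lt]
    rw [e1, e2] at e
    simp only [M]
    linarith
  have hex : ∃ i : ℕ, K ≤ i ∧ 3 / 2 - 2 / ((i:ℝ) + 1) < M (i + 1) := by
    refine ⟨n + K, by omega, ?_⟩
    rw [hMbig]
    have : (0:ℝ) ≤ 2 / (((n + K : ℕ):ℝ) + 1) := by positivity
    linarith
  set i := Nat.find hex with hi
  obtain ⟨hKi, hMi⟩ := Nat.find_spec hex
  rw [← hi] at hKi hMi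
  have hmin : ∀ j : ℕ, K ≤ j → j ≤ i → M j ≤ 3 / 2 - 2 / (j:ℝ) := by
    intro j hj hji
    rcases Nat.eq_or_lt_of_le hj with h | h
    · rw [← h, hM0]
      have h8 : (8:ℝ) ≤ K := by exact_mod_cast hK
      have : 2 / (K:ℝ) ≤ 1 := by rw [div_le_one (by linarith)]; linarith
      linarith
    · obtain ⟨j, rfl⟩ : ∃ j', j = j' + 1 := ⟨j - 1, by omega⟩
      have := Nat.find_min hex (m := j) (by omega)
      rw [not_and, not_lt] at this
      have := this (by omega)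
      push_cast
      exact this
  have hi8 : (8:ℝ) ≤ i := by exact_mod_cast hK.trans hKi
  have hQmem : ∀ p ∈ P.filter (fun p => p < 2 ^ (i + 1)), p.Prime ∧ p ∣ n ∧ 2 ^ K ≤ p ∧
      p < 2 ^ (i + 1) := by
    intro p hp
    rw [mem_filter] at hp
    obtain ⟨a, b, c⟩ := hPmem p hp.1
    exact ⟨a, b, c, hp.2⟩
  refine ⟨i, hKi, P.filter (fun p => p < 2 ^ (i + 1)), hQmem, ?_, ?_, ?_⟩
  · show (5 / 4 : ℝ) ≤ M (i + 1)
    have : 2 / ((i:ℝ) + 1) ≤ 1 / 4 := by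
      rw [div_le_div_iff₀ (by linarith) (by norm_num)]
      linarith
    linarith
  · have h3 := hMsplit i (i + 1) (by omega)
    have h4 := hmin i hKi le_rfl
    have h5 : ∑ p ∈ P.filter (fun p => p < 2 ^ (i + 1) ∧ 2 ^ i ≤ p), (1 / (p:ℝ)) ≤
        (P.filter (fun p => p < 2 ^ (i + 1) ∧ 2 ^ i ≤ p)).card * (1 / (2:ℝ) ^ i) := by
      rw [← nsmul_eq_mul]
      refine sum_le_card_nsmul _ _ _ fun p hp => ?_
      have hp' : 2 ^ i ≤ p := (mem_filter.1 hp).2.2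
      have : (2:ℝ) ^ i ≤ p := by exact_mod_cast hp'
      exact one_div_le_one_div_of_le (by positivity) this
    have h6 : 2 / ((i:ℝ) * (i + 1)) < M (i + 1) - M i := by
      have : 2 / ((i:ℝ) * (i + 1)) = 2 / (i:ℝ) - 2 / ((i:ℝ) + 1) := by
        field_simp
        ring
      rw [this]
      linarith
    rw [h3] at h6
    have h7 := h6.trans_le h5
    rw [filter_filter]
    set c := (P.filter (fun p => p < 2 ^ (i + 1) ∧ 2 ^ i ≤ p)).card
    have hpos : (0:ℝ) < i * (i + 1) := by positivity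
    have h8 : (2:ℝ) ^ (i + 1) < i * (i + 1) * c := by
      rw [mul_one_div, div_lt_div_iff₀ hpos (by positivity)] at h7
      rw [pow_succ]
      nlinarith
    have h9 : ((2 ^ (i + 1) : ℕ) : ℝ) < ((i * (i + 1) * c : ℕ) : ℝ) := by
      push_cast
      exact h8
    exact (Nat.cast_lt.1 h9).le
  · intro m hKm hmi
    have hm0 : m ≠ 0 := by
      have : 0 < 2 ^ K := by positivity
      omega
    set j := Nat.log 2 m + 1 with hj
    have hj1 : 2 ^ (j - 1) ≤ m := by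
      rw [hj, Nat.add_sub_cancel]
      exact Nat.pow_log_le_self 2 hm0
    have hj2 : m < 2 ^ j := Nat.lt_pow_succ_log_self (by norm_num) m
    have hKj : K + 1 ≤ j := by
      have : K ≤ Nat.log 2 m := Nat.le_log_of_pow_le (by norm_num) hKm
      omega
    have hji : j ≤ i := by
      by_contra h
      have : 2 ^ i ≤ 2 ^ (j - 1) := Nat.pow_le_pow_right (by norm_num) (by omega)
      omega
    have h3 := hMsplit j (i + 1) (by omega)
    have h4 := hmin j (by omega) hji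
    have hj8 : (8:ℝ) ≤ j := by exact_mod_cast (by omega : 8 ≤ j)
    have hjir : (j:ℝ) ≤ i := by exact_mod_cast hji
    have h5 : 2 / ((i:ℝ) + 1) ≤ 2 / ((j:ℝ) + 1) :=
      div_le_div_of_nonneg_left (by norm_num) (by linarith) (by linarith)
    have h6 : 2 / ((j:ℝ) * (j + 1)) < M (i + 1) - M j := by
      have : 2 / ((j:ℝ) * (j + 1)) = 2 / (j:ℝ) - 2 / ((j:ℝ) + 1) := by
        have : (j:ℝ) ≠ 0 := by linarith
        have : (j:ℝ) + 1 ≠ 0 := by linarith
        field_simp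
        ring
      rw [this]
      linarith
    have h7 : (1 / (m:ℝ)) ≤ 2 / ((j:ℝ) * (j + 1)) := by
      have hm1 : (2:ℝ) ^ (j - 1) ≤ m := by exact_mod_cast hj1
      have hmpos : (0:ℝ) < m := lt_of_lt_of_le (by positivity) hm1
      rw [div_le_div_iff₀ hmpos (by nlinarith)]
      have hpow : j * (j + 1) ≤ 2 ^ j := by
        have hj8' : 8 ≤ j := by omega
        clear_value j
        induction j, hj8' using Nat.le_induction with
        | base => norm_num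
        | succ k hk ih =>
          have : k * (k + 1) ≤ 2 ^ k := by
            clear * - hk
            induction k, hk using Nat.le_induction with
            | base => norm_num
            | succ k hk ih => rw [pow_succ]; nlinarith
          rw [pow_succ]; nlinarith
      have hpow' : (j:ℝ) * (j + 1) ≤ 2 ^ j := by exact_mod_cast hpow
      have h2j : (2:ℝ) ^ j = 2 * 2 ^ (j - 1) := by
        rw [← pow_succ', Nat.sub_add_cancel (by omega)]
      linarith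
    have h8 : ∑ p ∈ P.filter (fun p => p < 2 ^ (i + 1) ∧ 2 ^ j ≤ p), (1 / (p:ℝ)) ≤
        ∑ p ∈ (P.filter (fun p => p < 2 ^ (i + 1))).filter (fun p => m < p), (1 / (p:ℝ)) := by
      rw [filter_filter]
      refine sum_le_sum_of_subset_of_nonneg ?_ (fun p _ _ => by positivity)
      intro p hp
      rw [mem_filter] at hp ⊢
      exact ⟨hp.1, hp.2.1, lt_of_lt_of_le hj2 hp.2.2⟩
    rw [← h3] at h8
    linarith

theorem scale (n : ℕ) (hn : 0 < n)
    (hσ : (2:ℝ) ^ 1000 + 2 ≤ ∑ p ∈ n.primeFactors, (1 / (p:ℝ))) :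
    ∃ i : ℕ, 1000 ≤ i ∧ ∃ Q : Finset ℕ,
      (∀ p ∈ Q, p.Prime ∧ p ∣ n ∧ 2 ^ 1000 ≤ p ∧ p < 2 ^ (i + 1)) ∧
      (5 / 4 : ℝ) ≤ ∑ p ∈ Q, (1 / (p:ℝ)) ∧
      2 ^ (i + 1) ≤ i * (i + 1) * (Q.filter (fun p => 2 ^ i ≤ p)).card ∧
      ∀ m : ℕ, 2 ^ 1000 ≤ m → m < 2 ^ i →
        (1 / (m:ℝ)) ≤ ∑ p ∈ Q.filter (fun p => m < p), (1 / (p:ℝ)) :=
  scale_aux 1000 n (by norm_num) hn hσ


end Weird
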